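import Pool.Agent.TH683.W1D.Step
import Pool.Agent.H591R3.PHG.LangSig
import Pool.Agent.H591R3.PHG.LangTr

/-! # The W-hierarchy relative to an oracle, and the problems with a hidden key -/

set_option autoImplicit false

namespace Pool.Agent.TH683.WH

open Pool.Agent.NPC Pool.Agent.H620R2.Gauge Pool.Agent.H591R3.PHG Pool.Agent.H622R2
  Pool.Agent.TH678.HW Pool.Agent.TH678.WP Pool.Agent.TH678.ETH
open Pool.Agent.H591R3.PHG.LangSig (fit length_fit fit_eq dec poly_fit poly_dec exists_fit forall_fit
  length_unpair)

/-- `s` alternating quantifiers over the strings of at most `m` bits, the first one existential if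
the bit is `true`, in front of the property `T`. The string bound by a quantifier is paired with the
former string. -/
def Alt (m : ℕ) (T : List Bool → Prop) : ℕ → Bool → List Bool → Prop
  | 0, _, y => T y
  | s + 1, true, y => ∃ v : List Bool, v.length ≤ m ∧ Alt m T s false (pairBits v y)
  | s + 1, false, y => ∀ v : List Bool, v.length ≤ m → Alt m T s true (pairBits v y)

/-- The class `W[t]` relative to `A`, for `t ≥ 1`: after a computation `R` in time
`f k * poly |x|` relative to `A`, at most `n = h k * log |x|` bits `w` are guessed; then there are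
`t - 1` further alternating quantifiers over strings of at most `log |x|` bits, and then the
algorithm `M` asks at most `h k` questions, of at most `n` bits. -/
def InW (A : Oracle) (t : ℕ) (P : Set (List Bool × ℕ)) : Prop :=
  ∃ (π : ℕ → List Bool) (h : ℕ → ℕ) (R : List Bool → List Bool) (M : Alg),
    Computable π ∧ Computable h ∧ IsFP A R ∧ ∀ x k, (x, k) ∈ P ↔
      ∃ w : List Bool, w.length ≤ h k * (Nat.log 2 x.length + 1) ∧
        Alt (Nat.log 2 x.length + 1)
          (Tail M A (h k * (Nat.log 2 x.length + 1)) (h k)) (t - 1) false
          (pairBits w (R (pairBits (π k) x)))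

/-- A class which contains the nonuniform versions of `W[t]` and of the level `A[t]` of the
A-hierarchy: the functions `π` and `h` of the parameter are arbitrary, and the further quantifiers
are over strings of at most `g k * (log |x| + 1)` bits, where `g` is arbitrary too. (For `g k = 1`
this is nonuniform `W[t]`, and for `g = h` it is nonuniform `A[t]`.) -/
def InWide (A : Oracle) (t : ℕ) (P : Set (List Bool × ℕ)) : Prop :=
  ∃ (π : ℕ → List Bool) (h g : ℕ → ℕ) (R : List Bool → List Bool) (M : Alg),
    IsFP A R ∧ ∀ x k, (x, k) ∈ P ↔
      ∃ w : List Bool, w.length ≤ h k * (Nat.log 2 x.length + 1) ∧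
        Alt (g k * (Nat.log 2 x.length + 1))
          (Tail M A (h k * (Nat.log 2 x.length + 1)) (h k)) (t - 1) false
          (pairBits w (R (pairBits (π k) x)))

theorem alt_congr {m : ℕ} {T T' : List Bool → Prop} (h : ∀ y, T y ↔ T' y) (s : ℕ) (b : Bool)
    (y : List Bool) : Alt m T s b y ↔ Alt m T' s b y := by
  have : T = T' := funext fun x => propext (h x)
  rw [this]

/-- a quantifier at the end which is not used -/
theorem alt_skip {m : ℕ} {T T' : List Bool → Prop} (h : ∀ v y, T' (pairBits v y) ↔ T y) :
    ∀ (s : ℕ) (b : Bool) (y : List Bool), Alt m T' (s + 1) b y ↔ Alt m T s b y := by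
  intro s
  induction s with
  | zero =>
    intro b y
    cases b with
    | true =>
      simp only [Alt, h]
      exact ⟨fun ⟨_, _, h1⟩ => h1, fun h1 => ⟨[], Nat.zero_le _, h1⟩⟩
    | false =>
      simp only [Alt, h]
      exact ⟨fun h1 => h1 [] (Nat.zero_le _), fun h1 _ _ => h1⟩
  | succ s ih =>
    intro b y
    cases b with
    | true =>
      rw [Alt, Alt]
      exact exists_congr fun v => and_congr_right fun _ => ih _ _
    | false =>
      rw [Alt, Alt]
      exact forall_congr' fun v => imp_congr_right fun _ => ih _ _

theorem w_succ {A : Oracle} {t : ℕ} (ht : 1 ≤ t) {P : Set (List Bool × ℕ)} (h : InW A t P) :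
    InW A (t + 1) P := by
  obtain ⟨π, h, R, M, hπ, hh, hR, hP⟩ := h
  refine ⟨π, h, R, W1D.skp M, hπ, hh, hR, fun x k => ?_⟩
  rw [hP]
  refine exists_congr fun w => and_congr_right fun _ => ?_
  obtain ⟨t, rfl⟩ : ∃ t', t = t' + 1 := ⟨t - 1, by omega⟩
  have e : t + 1 + 1 - 1 = (t + 1 - 1) + 1 := by omega
  rw [e]
  refine (alt_skip (fun v y => ?_) _ _ _).symm
  unfold Tail
  rw [W1D.run_skp]

/-- a property of the outer strings -/
theorem alt_and {m t : ℕ} (K L : List Bool → Prop) : ∀ (s i : ℕ) (b : Bool) (y : List Bool),
    i + s = t → (Alt m (fun z => K (strip t z) ∧ L z) s b y ↔ K (strip i y) ∧ Alt m L s b y) := by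
  intro s
  induction s with
  | zero =>
    intro i b y hi
    have hi : i = t := by omega
    subst hi
    rfl
  | succ s ih =>
    intro i b y hi
    have key : ∀ (b : Bool) (v : List Bool), (Alt m (fun z => K (strip t z) ∧ L z) s b
        (pairBits v y) ↔ K (strip i y) ∧ Alt m L s b (pairBits v y)) := by
      intro b v
      rw [ih (i + 1) b (pairBits v y) (by omega)]
      simp only [strip, unpair_pairBits]
    cases b with
    | true =>
      rw [Alt, Alt]
      simp only [key]
      constructor
      · rintro ⟨v, h1, h2, h3⟩
        exact ⟨h2, v, h1, h3⟩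
      · rintro ⟨h2, v, h1, h3⟩
        exact ⟨v, h1, h2, h3⟩
    | false =>
      rw [Alt, Alt]
      simp only [key]
      constructor
      · intro h
        exact ⟨(h [] (Nat.zero_le _)).1, fun v hv => (h v hv).2⟩
      · rintro ⟨h1, h2⟩ v hv
        exact ⟨h1, h2 v hv⟩

/-! ### The algorithm -/

/-- the string of quantified strings for the language -/
def cv : ℕ → List Bool → List Bool
  | 0, y => pairBits (unpair (unpair y).1).2
      ((unpair (unpair (unpair y).2).2).2 ++ fit (unpair (unpair y).2).1 (unpair (unpair y).1).1)
  | j + 1, y => pairBits (unpair y).1 (cv j (unpair y).2)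

/-- the question for the key, where `y` consists of the index, the guess and the data -/
def Kq (y : List Bool) : List Bool :=
  true :: false :: (fit (unpair (unpair (unpair y).2).2).1 (unpair (unpair (unpair y).2).1).1 ++
    fit (unpair (unpair (unpair (unpair y).2).2).2).1 (unpair y).1)

/-- the question for the leaf -/
def Lq (t : ℕ) (y : List Bool) : List Bool :=
  true :: true :: ((dec (t + 1) (cv t (unpair y).2)).2 ++
    ((unpair y).1.zip (unpair (dec (t + 1) (cv t (unpair y).2)).1).1.tail).map (fun _ => true))

/-- the next action -/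
def DT (t : ℕ) (z : List Bool) : List Bool :=
  if (unpair z).2 = [] then false :: Kq (strip t (unpair z).1)
  else if (unpair z).2.tail = [] then false :: Lq t (unpair z).1
  else if (unpair z).2 = [true, bot false t] then [true, true] else [true]

theorem poly_u1 : Poly (fun z : List Bool => (unpair z).1) := Poly.fst poly_unpair

theorem poly_u2 : Poly (fun z : List Bool => (unpair z).2) := Poly.snd poly_unpair

theorem poly_cv (t : ℕ) : Poly (cv t) := by
  induction t with
  | zero =>
    exact poly_pairBits (poly_u2.comp poly_u1) (Poly.append (poly_u2.comp (poly_u2.comp poly_u2))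
      (poly_fit (poly_u1.comp poly_u2) (poly_u1.comp poly_u1)))
  | succ t ih => exact poly_pairBits poly_u1 (ih.comp poly_u2)

theorem poly_Kq : Poly Kq := by
  have h1 := poly_fit (poly_u1.comp (poly_u2.comp poly_u2)) (poly_u1.comp (poly_u1.comp poly_u2))
  have h2 := poly_fit (poly_u1.comp (poly_u2.comp (poly_u2.comp poly_u2))) poly_u1
  exact Poly.cons (NPC.Poly.const true) (Poly.cons (NPC.Poly.const false) (Poly.append h1 h2))

theorem poly_Lq (t : ℕ) : Poly (Lq t) := by
  have h1 : Poly (fun y : List Bool => dec (t + 1) (cv t (unpair y).2)) :=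
    (poly_dec (t + 1)).comp ((poly_cv t).comp poly_u2)
  have h2 : Poly (fun y : List Bool => (unpair (dec (t + 1) (cv t (unpair y).2)).1).1.tail) :=
    Poly.tail (poly_u1.comp (Poly.fst h1))
  have h3 : Poly (fun y : List Bool => ((unpair y).1.zip
      (unpair (dec (t + 1) (cv t (unpair y).2)).1).1.tail).map (fun _ => true)) :=
    NPC.Poly.map (F := fun _ _ => true) (Poly.zip poly_u1 h2) (NPC.Poly.const true)
  exact Poly.cons (NPC.Poly.const true) (Poly.cons (NPC.Poly.const true)
    (Poly.append (Poly.snd h1) h3))

theorem poly_DT (t : ℕ) : Poly (DT t) := by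
  have h1 : Poly (fun z : List Bool => Kq (strip t (unpair z).1)) :=
    poly_Kq.comp ((poly_strip t).comp poly_u1)
  have h2 : Poly (fun z : List Bool => Lq t (unpair z).1) := (poly_Lq t).comp poly_u1
  exact Poly.ite (Poly.decide_eq poly_u2 (NPC.Poly.const _))
    (Poly.cons (NPC.Poly.const false) h1)
    (Poly.ite (Poly.decide_eq (Poly.tail poly_u2) (NPC.Poly.const _))
      (Poly.cons (NPC.Poly.const false) h2)
      (Poly.ite (Poly.decide_eq poly_u2 (NPC.Poly.const _)) (NPC.Poly.const _)
        (NPC.Poly.const _)))

/-- the algorithm -/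
noncomputable def MT (t : ℕ) : Alg := ⟨DT t, polyTime_of_poly_list (poly_DT t), 1⟩

theorem run_MT (t : ℕ) (B : Oracle) (y : List Bool) {m : ℕ} (hm : 2 ≤ m) :
    (MT t).run B y (m + 1) [] = some [true] ↔
      B (Kq (strip t y)) = true ∧ B (Lq t y) = bot false t := by
  obtain ⟨m, rfl⟩ : ∃ m', m = m' + 2 := ⟨m - 2, by omega⟩
  have h0 : (MT t).D (pairBits y []) = false :: Kq (strip t y) := by
    unfold MT DT
    simp only [unpair_pairBits, if_true]
  have h1 : ∀ b : Bool, (MT t).D (pairBits y [b]) = false :: Lq t y := by
    intro b
    unfold MT DT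
    simp only [unpair_pairBits]
    simp
  have h2 : ∀ b c : Bool, (MT t).D (pairBits y [b, c]) =
      if b = true ∧ c = bot false t then [true, true] else [true] := by
    intro b c
    unfold MT DT
    simp only [unpair_pairBits]
    simp
  rw [Alg.run, h0]
  show (MT t).run B y (m + 1 + 1) ([] ++ [B (Kq (strip t y))]) = some [true] ↔ _
  rw [List.nil_append, Alg.run, h1]
  show (MT t).run B y (m + 1) ([B (Kq (strip t y))] ++ [B (Lq t y)]) = some [true] ↔ _
  rw [List.singleton_append, Alg.run, h2]
  by_cases h3 : B (Kq (strip t y)) = true ∧ B (Lq t y) = bot false t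
  · rw [if_pos h3]
    simp [h3]
  · rw [if_neg h3]
    simp only [Option.some.injEq, iff_false_intro h3, iff_false]
    simp

/-- the data for the algorithm -/
def RT (x : List Bool) : List Bool :=
  pairBits (unpair x).1 (pairBits (unpair (unpair x).2).1 (unpair (unpair (unpair x).2).2).1)

/-- **The problems with a hidden key.** -/
def prob (t : ℕ) (O : Oracle) : Set (List Bool × ℕ) :=
  {p | ∃ w : List Bool, w.length ≤ p.2 * (Nat.log 2 p.1.length + 1) ∧
    Alt (Nat.log 2 p.1.length + 1) (Tail (MT t) O (p.2 * (Nat.log 2 p.1.length + 1)) p.2) (t + 1)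
      false (pairBits w (RT p.1))}

theorem prob_w (t : ℕ) (O : Oracle) : InW O (t + 2) (prob t O) := by
  have hR : Poly (fun z : List Bool => RT (unpair z).2) :=
    (poly_pairBits poly_u1 (poly_pairBits (poly_u1.comp poly_u2)
      (poly_u1.comp (poly_u2.comp poly_u2)))).comp poly_u2
  refine ⟨fun _ => [], fun k => k, fun z => RT (unpair z).2, MT t, Computable.const _,
    Computable.id, IsFP.of_poly hR, fun x k => ?_⟩
  have e : RT (unpair (pairBits [] x)).2 = RT x := by rw [unpair_pairBits]
  show _ ↔ ∃ w : List Bool, w.length ≤ k * (Nat.log 2 x.length + 1) ∧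
    Alt (Nat.log 2 x.length + 1) (Tail (MT t) O (k * (Nat.log 2 x.length + 1)) k) (t + 1)
      false (pairBits w (RT (unpair (pairBits [] x)).2))
  rw [e]
  rfl

/-! ### The evaluation -/

theorem length_tail_zip (v W : List Bool) :
    ((v.zip W.tail).map (fun _ => true)) = List.replicate (min v.length (W.length - 1)) true := by
  rw [List.map_const', List.length_zip, List.length_tail]

theorem alt_eval {t : ℕ} (O : Oracle) (m : ℕ) : ∀ (j i : ℕ) (b : Bool)
    (y r q : List Bool), i + j = t → dec (i + 1) (cv i y) = (r, q) →
    (∀ a ∈ (parse j r).1, a ≤ m) → (unpair (parse j r).2).1.length ≤ m →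
    1 ≤ (unpair (parse j r).2).1.length →
      (Alt m (fun z => O (Lq t z) = bot b j) (j + 1) b y ↔
        ((parse j r).1.foldr up (bitv (fun z => O (true :: true :: z))
          (unpair (parse j r).2).1.length)) q = !b) := by
  intro j
  induction j with
  | zero =>
    intro i b y r q hi hd hm hW hW1
    have hi : i = t := by omega
    subst hi
    have hLq : ∀ v : List Bool, Lq i (pairBits v y) =
        true :: true :: (q ++ List.replicate (min v.length ((unpair r).1.length - 1)) true) := by
      intro v
      unfold Lq
      rw [unpair_pairBits]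
      dsimp only
      rw [hd, length_tail_zip]
    have hW' : (unpair r).1.length ≤ m := hW
    have hW1' : 1 ≤ (unpair r).1.length := hW1
    show _ ↔ bitv (fun z => O (true :: true :: z)) (unpair r).1.length q = !b
    unfold bitv
    cases b with
    | true =>
      rw [Alt]
      simp only [Alt, hLq, bot, Bool.not_true, decide_eq_false_iff_not]
      push Not
      constructor
      · rintro ⟨v, hv, h1⟩
        exact ⟨min v.length ((unpair r).1.length - 1), by omega, by rw [h1]; simp⟩
      · rintro ⟨l, hl, h1⟩
        refine ⟨List.replicate l true, by rw [List.length_replicate]; omega, ?_⟩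
        rw [List.length_replicate, Nat.min_eq_left (by omega)]
        simpa using h1
    | false =>
      rw [Alt]
      simp only [Alt, hLq, bot, Bool.not_false, decide_eq_true_eq]
      constructor
      · intro h1 l hl
        have h2 := h1 (List.replicate l true) (by rw [List.length_replicate]; omega)
        rwa [List.length_replicate, Nat.min_eq_left (by omega)] at h2
      · intro h1 v hv
        exact h1 _ (by omega)
  | succ j ih =>
    intro i b y r q hi hd hm hW hW1
    have hl : (unpair r).1.length ≤ m := hm _ (List.mem_cons_self ..)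
    have key : ∀ (w : List Bool), (Alt m (fun z => O (Lq t z) = bot b (j + 1)) (j + 1) (!b)
        (pairBits w y) ↔
        ((parse j (unpair r).2).1.foldr up
          (bitv (fun z => O (true :: true :: z)) (unpair (parse j (unpair r).2).2).1.length))
            (q ++ fit (unpair r).1 w) = b) := by
      intro w
      have h1 := ih (i + 1) (!b) (pairBits w y) (unpair r).2 (q ++ fit (unpair r).1 w)
        (by omega) (by simp only [cv, unpair_pairBits]; rw [dec]; simp only [unpair_pairBits, hd])
        (fun a ha => hm a (List.mem_cons_of_mem _ ha)) hW hW1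
      rw [Bool.not_not] at h1
      exact h1
    have hfold : ((parse (j + 1) r).1.foldr up
        (bitv (fun z => O (true :: true :: z)) (unpair (parse (j + 1) r).2).1.length)) q =
        decide (∀ i < 2 ^ (unpair r).1.length, ((parse j (unpair r).2).1.foldr up
          (bitv (fun z => O (true :: true :: z)) (unpair (parse j (unpair r).2).2).1.length))
            (q ++ bitsOf (unpair r).1.length i) = false) := rfl
    rw [hfold]
    cases b with
    | true =>
      have key' : ∀ w : List Bool, (Alt m (fun z => O (Lq t z) = bot true (j + 1)) (j + 1) false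
        (pairBits w y) ↔ _) := key
      rw [Alt]
      simp only [key']
      rw [exists_fit (fun w => ((parse j (unpair r).2).1.foldr up
          (bitv (fun z => O (true :: true :: z)) (unpair (parse j (unpair r).2).2).1.length))
            (q ++ w) = true) (unpair r).1 rfl hl]
      simp
    | false =>
      have key' : ∀ w : List Bool, (Alt m (fun z => O (Lq t z) = bot false (j + 1)) (j + 1) true
        (pairBits w y) ↔ _) := key
      rw [Alt]
      simp only [key']
      rw [forall_fit (fun w => ((parse j (unpair r).2).1.foldr up
          (bitv (fun z => O (true :: true :: z)) (unpair (parse j (unpair r).2).2).1.length))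
            (q ++ w) = false) (unpair r).1 rfl hl]
      simp

end Pool.Agent.TH683.WH
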