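import Pool.Agent.TH683.WH.Low
import Pool.Agent.TH683.WPD.Fail

/-! # The W-hierarchy relative to random oracles -/

set_option autoImplicit false

namespace Pool.Agent.TH683.WH

open Pool.Agent.NPC Pool.Agent.H620R2.Gauge Pool.Agent.H591R3.PHG Pool.Agent.H622R2
  Pool.Agent.TH678.HW Pool.Agent.TH678.WP Pool.Agent.TH678.ETH Pool.Agent.H676 Finset H568R2
  MeasureTheory Pool.Agent.W900.IE Pool.Agent.W900.PS Pool.Agent.TH680
open Pool.Agent.TH680.OD (join)

/-- **The data of the stages.** -/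
theorem exists_sd (t : ℕ) (MR : Alg) : ∃ k : ℕ, ∀ (M : Alg) (π : List Bool) (h g : ℕ),
    ∃ n₀ : ℕ, ∀ n, n₀ ≤ n → ∃ d : Sd, d.Ok ∧ d.t = t ∧ d.n = n ∧ d.k = k ∧ d.MR = MR ∧
      d.M = M ∧ d.π = π ∧ d.h = h ∧ d.g = g := by
  obtain ⟨c, hc⟩ := poly_le MR.p 0
  set k := 4 * (t + 2) + 8 * c + 3 with hk
  refine ⟨k, fun M π h g => ?_⟩
  -- large numbers
  obtain ⟨n₁, hn₁⟩ := X9.exists_n0 (Polynomial.C (32 * k) * (Polynomial.X + 1) +
    Polynomial.C (2 * π.length + 400 * (t + 3)) * (Polynomial.X + 1))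
  obtain ⟨u₁, hu₁⟩ := X9.exists_n0 (Polynomial.C ((t + 1) * (2 * (h + g + 1) + 1) * 2000 + t + h + 20) *
    (Polynomial.X + 1))
  refine ⟨n₁ + 8 * u₁ + 2 * c + t + 30, fun n hn => ?_⟩
  have hn5 : 5 ≤ n := by omega
  obtain ⟨as, hlen, has, hlaw⟩ := exists_sizes hn5 (t + 1) _ (inv_start hn5)
  have hu8 : 8 * (n / 8) ≤ n := Nat.mul_div_le n 8
  have hlt8 : n < 8 * (n / 8 + 1) := Nat.lt_mul_div_succ n (by norm_num)
  set u := n / 8 with hu
  have h1 : 32 * k * (n + 1) + (2 * π.length + 400 * (t + 3)) * (n + 1) ≤ 2 ^ n := by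
    have h2 := hn₁ n (by omega)
    simpa using h2
  have h2 : ((t + 1) * (2 * (h + g + 1) + 1) * 2000 + t + h + 20) * (u + 1) ≤ 2 ^ u := by
    have h3 := hu₁ u (by omega)
    simpa using h3
  set b := Nat.log 2 (8 * k * n) + 1 with hb
  have hk1 : 1 ≤ k := by omega
  have hkn0 : 8 * k * n ≠ 0 := by positivity
  have hb1 : 8 * k * n < 2 ^ b := Nat.lt_pow_succ_log_self (by norm_num) _
  have hb2 : 2 ^ b ≤ 16 * k * n := by
    have h3 := Nat.pow_log_le_self 2 hkn0
    rw [hb, pow_succ]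
    calc 2 ^ Nat.log 2 (8 * k * n) * 2 ≤ 8 * k * n * 2 := Nat.mul_le_mul_right _ h3
      _ = 16 * k * n := by ring
  have hkn : k ≤ k * n := Nat.le_mul_of_pos_right _ (by omega)
  have hb3 : b ≤ n := by
    have h3 : 2 ^ b ≤ 2 ^ n := by
      refine hb2.trans (le_trans ?_ h1)
      have h4 : 16 * k * n ≤ 32 * k * (n + 1) := by nlinarith
      omega
    exact (Nat.pow_le_pow_iff_right (by norm_num)).1 h3
  have hsum := H591R3.PHG.sum_le n as has
  rw [hlen] at hsum
  set s := 2 ^ b - 1 with hs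
  have hs2 : s + 1 = 2 ^ b := by omega
  set d : Sd := ⟨t, n, u, k, s, b, as, MR, M, π, h, g⟩ with hd
  have hN1 : 64 * n ≤ d.N := Sd.le_N (d := d)
  have e16 : 16 * k * n = 16 * (k * n) := by ring
  have e8 : 8 * k * n = 8 * (k * n) := by ring
  have hsum2 : as.sum ≤ 64 * ((t + 2) * n) := by
    calc as.sum ≤ (t + 1 + 1) * (64 * n) := hsum
      _ = 64 * ((t + 2) * n) := by ring
  have htn : (t + 2) * n ≤ (t + 3) * (n + 1) := Nat.mul_le_mul (by omega) (by omega)
  have e400 : (2 * π.length + 400 * (t + 3)) * (n + 1) =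
      2 * (π.length * (n + 1)) + 400 * ((t + 3) * (n + 1)) := by ring
  have e32 : 32 * k * (n + 1) = 32 * (k * n) + 32 * k := by ring
  have hn1 : n + 1 ≤ (t + 3) * (n + 1) := Nat.le_mul_of_pos_left _ (by omega)
  have ht3 : t + 3 ≤ (t + 3) * (n + 1) := Nat.le_mul_of_pos_right _ (by omega)
  have hπn : π.length ≤ π.length * (n + 1) := Nat.le_mul_of_pos_right _ (by omega)
  have hlen2 : d.len = 2 * s + 1 + (2 * b + 1 + (2 * (2 * as.sum + (t + 1 + 1) + 2 * (8 * n) + 1 +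
      (n + 11)) + 1 + 2 ^ (64 * n))) := by
    rw [← hlen]
    rfl
  have h64 : 2 ^ n ≤ 2 ^ (64 * n) := Nat.pow_le_pow_right (by norm_num) (by omega)
  have hL : 2 * π.length + 1 + d.len ≤ 2 ^ (64 * n + 1) := by
    rw [hlen2, pow_succ]
    have h3 : 2 * π.length + 1 + (2 * s + 1 + (2 * b + 1 + (2 * (2 * as.sum + (t + 1 + 1) +
        2 * (8 * n) + 1 + (n + 11)) + 1))) ≤ 2 ^ n := by
      refine le_trans ?_ h1
      rw [e400, e32]
      omega
    omega
  have hN2 : d.N ≤ 64 * n + 1 := by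
    have h3 : d.N ≤ Nat.log 2 (2 ^ (64 * n + 1)) := Nat.log_mono_right (by omega)
    rwa [Nat.log_pow (by norm_num)] at h3
  have hkN : k * (64 * n) ≤ k * (d.N + 1) := Nat.mul_le_mul_left _ (by omega)
  have ek64 : k * (64 * n) = 64 * (k * n) := by ring
  have hktn : 4 * ((t + 2) * n) + 8 * (c * n) + 3 * n = k * n := by
    rw [hk]
    ring
  refine ⟨d, ?_, rfl, rfl, rfl, rfl, rfl, rfl, rfl, rfl⟩
  exact {
    hn := hn5
    hu := hu8
    hu2 := by
      show 2 ≤ u
      omega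
    hlen := hlen
    has := has
    hlaw := by
      have h3 := hlaw (Fin (2 ^ (u + 11))) (2 ^ (3 * u + 11)) (2 ^ (u + 9)) (by
        rw [show 16 = 2 ^ 4 by norm_num, ← pow_add]
        exact Nat.pow_le_pow_right (by norm_num) (by omega)) (by
        rw [Fintype.card_fin, show 4 = 2 ^ 2 by norm_num, ← pow_add]
        exact Nat.pow_le_pow_right (by norm_num) (by omega))
      rw [Fintype.card_fin] at h3
      exact h3
    hs := hs2
    hs1 := by
      show n ≤ s
      have h3 : n ≤ k * n := Nat.le_mul_of_pos_left _ hk1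
      omega
    hb := by
      show b ≤ 64 * n
      omega
    hk := by
      show 2 ≤ k
      omega
    hw := by
      show 2 * s + 1 + 64 * n ≤ k * (d.N + 1)
      have h3 : 2 * n ≤ k * n := Nat.mul_le_mul_right _ (by omega)
      omega
    hkey := by
      show 2 + s + b ≤ k * (d.N + 1)
      have h3 : 2 * n ≤ k * n := Nat.mul_le_mul_right _ (by omega)
      omega
    hleaf := by
      show 2 + (2 * as.sum + as.length + 2 * (8 * n) + 1 + (n + 11 + s)) + as.sum + 8 * n ≤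
        k * (d.N + 1)
      rw [hlen]
      omega
    hT := by
      show 4 * (2 ^ (u + 11) * MR.p.eval (2 * π.length + 1 + d.len)) ≤ 2 ^ s
      have h3 := hc (2 * π.length + 1 + d.len)
      have h4 : (2 * π.length + 1 + d.len) ^ c ≤ 2 ^ (c * (64 * n + 1)) := by
        rw [mul_comm c, pow_mul]
        exact Nat.pow_le_pow_left hL c
      have h5 : c ≤ 2 ^ (c * (64 * n + 1)) :=
        Nat.lt_two_pow_self.le.trans (Nat.pow_le_pow_right (by norm_num)
          (Nat.le_mul_of_pos_right _ (Nat.succ_pos _)))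
      have h6 : MR.p.eval (2 * π.length + 1 + d.len) ≤ 2 ^ (c * (64 * n + 1) + 1) := by
        rw [pow_succ]
        omega
      calc 4 * (2 ^ (u + 11) * MR.p.eval (2 * π.length + 1 + d.len))
          ≤ 4 * (2 ^ (u + 11) * 2 ^ (c * (64 * n + 1) + 1)) :=
            Nat.mul_le_mul_left _ (Nat.mul_le_mul_left _ h6)
        _ = 2 ^ (2 + (u + 11) + (c * (64 * n + 1) + 1)) := by
            rw [pow_add, pow_add]
            ring
        _ ≤ 2 ^ s := by
            apply Nat.pow_le_pow_right (by norm_num)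
            have h7 : c * (64 * n + 1) = 64 * (c * n) + c := by ring
            omega
    hh := by
      show h + 1 ≤ 2 ^ (2 * u)
      have h3 : 2 ^ u ≤ 2 ^ (2 * u) := Nat.pow_le_pow_right (by norm_num) (by omega)
      have h4 : ((t + 1) * (2 * (h + g + 1) + 1) * 2000 + t + h + 20) ≤
          ((t + 1) * (2 * (h + g + 1) + 1) * 2000 + t + h + 20) * (u + 1) :=
        Nat.le_mul_of_pos_right _ (Nat.succ_pos _)
      omega
    hbig := by
      show (t + 1) + (n + 11) + (t + 1) * (2 * ((h + g + 1) * (d.N + 1)) + 1) + 3 ≤ 2 ^ (2 * u)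
      have h3 : 2 ^ u ≤ 2 ^ (2 * u) := Nat.pow_le_pow_right (by norm_num) (by omega)
      have h4 : d.N + 1 ≤ 700 * (u + 1) := by omega
      have h5 : (t + 1) * (2 * ((h + g + 1) * (d.N + 1)) + 1) ≤
          (t + 1) * (2 * (h + g + 1) + 1) * (700 * (u + 1)) := by
        have h6 : 2 * ((h + g + 1) * (d.N + 1)) + 1 ≤ (2 * (h + g + 1) + 1) * (700 * (u + 1)) := by
          have h7 : (h + g + 1) * (d.N + 1) ≤ (h + g + 1) * (700 * (u + 1)) :=
            Nat.mul_le_mul_left _ h4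
          nlinarith
        calc (t + 1) * (2 * ((h + g + 1) * (d.N + 1)) + 1)
            ≤ (t + 1) * ((2 * (h + g + 1) + 1) * (700 * (u + 1))) := Nat.mul_le_mul_left _ h6
          _ = _ := by ring
      set Z := (t + 1) * (2 * (h + g + 1) + 1) with hZ
      have h8 : (Z * 2000 + t + h + 20) * (u + 1) =
          2000 * (Z * (u + 1)) + (t * (u + 1)) + (h * (u + 1)) + 20 * (u + 1) := by ring
      have h9 : Z * (700 * (u + 1)) = 700 * (Z * (u + 1)) := by ring
      have h10 : t ≤ t * (u + 1) := Nat.le_mul_of_pos_right _ (Nat.succ_pos _)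
      have h11 : 1 * (u + 1) ≤ Z * (u + 1) := by
        apply Nat.mul_le_mul_right
        rw [hZ]
        exact Nat.one_le_iff_ne_zero.2 (by positivity)
      rw [h8] at h2
      omega }

/-- **`W[t + 3]` is not contained in nonuniform `A[t + 1]`.** -/
theorem ae_prob (p : List Bool → unitInterval) (hp : ∀ z, (p z : ℝ) = 1 / 2) (Q : Oracle) (t : ℕ) :
    ∀ᵐ A ∂(indep p), ¬ InWide (join Q A) (t + 1) (prob (t + 1) (join Q A)) := by
  have := EL.countable_poly
  choose kk hkk using exists_sd t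
  have h1 : ∀ᵐ A ∂(indep p), ∀ (MR M : Alg) (π : List Bool) (h g : ℕ), ∃ d : Sd,
      (d.Ok ∧ d.t = t ∧ d.k = kk MR ∧ d.MR = MR ∧ d.M = M ∧ d.π = π ∧ d.h = h ∧ d.g = g) ∧
        A ∉ d.Right Q := by
    rw [ae_all_iff]
    intro MR
    rw [ae_all_iff]
    intro M
    rw [ae_all_iff]
    intro π
    rw [ae_all_iff]
    intro h
    rw [ae_all_iff]
    intro g
    obtain ⟨n₀, hn₀⟩ := hkk MR M π h g
    have hn₁ : ∀ n, ∃ d : Sd, d.Ok ∧ d.t = t ∧ d.n = n₀ + n ∧ d.k = kk MR ∧ d.MR = MR ∧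
      d.M = M ∧ d.π = π ∧ d.h = h ∧ d.g = g := fun n => hn₀ (n₀ + n) (Nat.le_add_right _ _)
    choose dd hdd using hn₁
    have h2 := null_of_stages p (R := fun n => (dd n).Right Q)
      (fun n => ⟨_, Sd.right_dep Q⟩) (fun D => ?_)
    · filter_upwards [h2] with A hA
      obtain ⟨n, hn⟩ := hA
      obtain ⟨a1, a2, _, a4, a5, a6, a7, a8, a9⟩ := hdd n
      exact ⟨dd n, ⟨a1, a2, a4, a5, a6, a7, a8, a9⟩, hn⟩
    · refine ⟨D.sup List.length + 1, fun C hC => ?_⟩
      refine Sd.stage_bound (hdd _).1 p hp Q hC fun z hz => ?_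
      have h3 := Finset.le_sup (f := List.length) hz
      rw [(hdd _).2.2.1]
      omega
  filter_upwards [h1] with A hA
  rintro ⟨π, h, g, R, M, ⟨MR, hMR⟩, hP⟩
  obtain ⟨d, ⟨hok, a2, a4, a5, a6, a7, a8, a9⟩, hd⟩ :=
    hA MR M (π (kk MR)) (h (kk MR)) (g (kk MR))
  apply hd
  intro j
  refine ⟨R (pairBits d.π (d.x j)), by rw [a5]; exact hMR _, ?_⟩
  have h2 := hP (d.x j) (kk MR)
  have hl : Nat.log 2 (d.x j).length = d.N := by
    rw [Sd.length_x]
    rfl
  rw [hl, Nat.add_sub_cancel] at h2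
  rw [a2, a4, a6, a7, a8, a9]
  exact h2

theorem main (p : List Bool → unitInterval) (hp : ∀ z, (p z : ℝ) = 1 / 2) (Q : Oracle) :
    ∀ᵐ A ∂(indep p), ∀ t : ℕ, 1 ≤ t → (∀ P, InW (join Q A) t P → InW (join Q A) (t + 1) P) ∧
      ∃ P, InW (join Q A) (t + 2) P ∧ ¬ InWide (join Q A) t P := by
  have h1 : ∀ᵐ A ∂(indep p), ∀ t : ℕ,
      ¬ InWide (join Q A) (t + 1) (prob (t + 1) (join Q A)) := by
    rw [ae_all_iff]
    exact fun t => ae_prob p hp Q t
  filter_upwards [h1] with A hA t ht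
  refine ⟨fun P => w_succ ht, prob t (join Q A), prob_w t _, ?_⟩
  obtain ⟨t, rfl⟩ : ∃ t', t = t' + 1 := ⟨t - 1, by omega⟩
  exact hA t

end Pool.Agent.TH683.WH
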