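import Pool.Agent.TH680.SE.Engine
import Pool.Agent.H591R3.PHG.Proj

/-! # Stages with a hidden key: the probability -/

set_option autoImplicit false

namespace Pool.Agent.TH683.WH

open Pool.Agent.NPC Pool.Agent.H620R2.Gauge Pool.Agent.H591R3.PHG MeasureTheory ProbabilityTheory
  Finset Pool.Agent.W900.IE Pool.Agent.W900.PS Pool.Agent.H622R2 Pool.Agent.W900 Pool.Agent.TH680
  H568R2
open Pool.Agent.TH680.SE (wit wit_dep setT real_match count_real pair_prob card_bad)

theorem count_le {Ω ι : Type} [MeasurableSpace Ω] (μ : Measure Ω) [IsProbabilityMeasure μ]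
    (W : Finset ι) (H : ι → Set Ω) (hH : ∀ i ∈ W, MeasurableSet (H i)) {E : Set Ω}
    (hE : MeasurableSet E) (k : ℝ)
    (h : ∀ ω, ∑ i ∈ W, Set.indicator (H i) (fun _ => (1 : ℝ)) ω ≤
      k * Set.indicator E (fun _ => (1 : ℝ)) ω) :
    ∑ i ∈ W, μ.real (H i) ≤ k * μ.real E := by
  have h1 : ∫ ω, ∑ i ∈ W, Set.indicator (H i) (fun _ => (1 : ℝ)) ω ∂μ ≤
      ∫ ω, k * Set.indicator E (fun _ => (1 : ℝ)) ω ∂μ := by
    apply integral_mono
      (integrable_finsetSum _ fun i hi => SE.intble_ind μ (hH i hi))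
      ((SE.intble_ind μ hE).const_mul k)
    exact h
  rw [integral_const_mul, SE.int_ind μ hE,
    integral_finsetSum _ fun i hi => SE.intble_ind μ (hH i hi)] at h1
  refine le_trans (le_of_eq ?_) h1
  exact Finset.sum_congr rfl fun i hi => (SE.int_ind μ (hH i hi)).symm

open Classical in
/-- the oracle `A`, with the values `z` at the strings `e j` -/
noncomputable def ow {J : Type} (e : J → List Bool) (z : J → Bool) (A : Oracle) : Oracle :=
  fun y => if h : ∃ j, e j = y then z h.choose else A y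

theorem ow_at {J : Type} {e : J → List Bool} (he : Function.Injective e) (z : J → Bool)
    (A : Oracle) (j : J) : ow e z A (e j) = z j := by
  have hex : ∃ j', e j' = e j := ⟨j, rfl⟩
  unfold ow
  rw [dif_pos hex]
  exact congrArg z (he hex.choose_spec)

theorem ow_off {J : Type} {e : J → List Bool} {z : J → Bool} {A : Oracle} {y : List Bool}
    (h : ∀ j, e j ≠ y) : ow e z A y = A y := by
  unfold ow
  rw [dif_neg]
  rintro ⟨j, hj⟩
  exact h j hj

theorem ow_self {J : Type} {e : J → List Bool} (he : Function.Injective e) {z : J → Bool}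
    {A : Oracle} (h : ∀ j, A (e j) = z j) : ow e z A = A := by
  funext y
  by_cases hy : ∃ j, e j = y
  · obtain ⟨j, rfl⟩ := hy
    rw [ow_at he, h]
  · push Not at hy
    exact ow_off hy

variable (p : List Bool → unitInterval)

theorem ber_half {t : ℝ} (ht : t = 1 / 2) (b : Bool) : ber t b = 1 / 2 := by
  unfold ber
  rw [ht]
  split_ifs <;> norm_num

/-- **The bits of a block may be drawn again.** -/
theorem av {J : Type} [Fintype J] [DecidableEq J] {e : J → List Bool}
    (he : Function.Injective e) (hp : ∀ z, (p z : ℝ) = 1 / 2) {G R : Set Oracle}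
    {DG DR : Finset (List Bool)} (hG : DepO DG G) (hR : DepO DR R)
    (hdis : ∀ j, e j ∉ DG) {c : ℝ}
    (h : ∀ A ∈ G, Ex (ber (1 / 2)) (fun z : J → Bool =>
      Set.indicator R (fun _ => (1 : ℝ)) (ow e z A)) ≤ c) :
    (indep p).real (G ∩ R) ≤ c * (indep p).real G := by
  classical
  set B : Finset (List Bool) := Finset.univ.image e with hB
  have hmB : ∀ y, y ∈ B ↔ ∃ j, e j = y := by
    intro y
    rw [hB, Finset.mem_image]
    simp
  set Hz : (J → Bool) → Set Oracle := fun z => {A | A ∈ G ∧ ow e z A ∈ R} with hHz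
  set Wz : (J → Bool) → Set Oracle := fun z => wit B (ow e z (fun _ => false)) with hWz
  have hmW : ∀ z A, A ∈ Wz z ↔ ∀ j, A (e j) = z j := by
    intro z A
    constructor
    · intro h1 j
      have h2 := h1 (e j) ((hmB _).2 ⟨j, rfl⟩)
      rw [h2, ow_at he]
    · intro h1 y hy
      obtain ⟨j, rfl⟩ := (hmB y).1 hy
      rw [h1, ow_at he]
  have hHd : ∀ z, DepO (DG ∪ (DR \ B)) (Hz z) := by
    intro z A A' h1 h2
    refine ⟨hG A A' (fun y hy => h1 y (Finset.mem_union_left _ hy)) h2.1, ?_⟩
    refine hR _ _ (fun y hy => ?_) h2.2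
    by_cases hyB : ∃ j, e j = y
    · obtain ⟨j, rfl⟩ := hyB
      rw [ow_at he, ow_at he]
    · have h3 := h1 y (Finset.mem_union_right _ (Finset.mem_sdiff.2 ⟨hy, fun h4 =>
        hyB ((hmB y).1 h4)⟩))
      push Not at hyB
      rw [ow_off hyB, ow_off hyB, h3]
  have hdis2 : Disjoint (DG ∪ (DR \ B)) B := by
    rw [Finset.disjoint_left]
    intro y hy hyB
    rcases Finset.mem_union.1 hy with h1 | h1
    · obtain ⟨j, rfl⟩ := (hmB y).1 hyB
      exact hdis j h1
    · exact (Finset.mem_sdiff.1 h1).2 hyB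
  have hcardB : B.card = Fintype.card J := by
    rw [hB, Finset.card_image_of_injective _ he]
    rfl
  have hmul : ∀ z, (indep p).real (Hz z ∩ Wz z) =
      (indep p).real (Hz z) * (1 / 2) ^ Fintype.card J := by
    intro z
    rw [hWz]
    rw [real_match p (hHd z) _ B hdis2]
    congr 1
    rw [Finset.prod_congr rfl (fun y _ => ber_half (hp y) _), Finset.prod_const, hcardB]
  have hsub : G ∩ R ⊆ ⋃ z ∈ (Finset.univ : Finset (J → Bool)), (Hz z ∩ Wz z) := by
    rintro A ⟨h1, h2⟩
    refine Set.mem_iUnion₂.2 ⟨fun j => A (e j), Finset.mem_univ _, ⟨h1, ?_⟩, ?_⟩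
    · rw [ow_self he (fun _ => rfl)]
      exact h2
    · exact (hmW _ _).2 fun _ => rfl
  have h1 := (measureReal_mono (μ := indep p) hsub (measure_ne_top _ _)).trans
    (measureReal_biUnion_finset_le _ _)
  rw [Finset.sum_congr rfl (fun z _ => hmul z), ← Finset.sum_mul] at h1
  have h2 := count_le (indep p) (Finset.univ : Finset (J → Bool)) Hz
    (fun z _ => (hHd z).measurable) hG.measurable (c * 2 ^ Fintype.card J) (by
      intro A
      by_cases hA : A ∈ G
      · rw [Set.indicator_of_mem hA, mul_one]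
        have h3 := h A hA
        unfold Ex at h3
        have h4 : ∀ z : J → Bool, (∏ i, ber (1 / 2) (z i)) *
            Set.indicator R (fun _ => (1 : ℝ)) (ow e z A) =
            (1 / 2) ^ Fintype.card J * Set.indicator (Hz z) (fun _ => (1 : ℝ)) A := by
          intro z
          congr 1
          · rw [Finset.prod_congr rfl (fun i _ => ber_half rfl (z i)), Finset.prod_const]
            rfl
          · by_cases h5 : ow e z A ∈ R
            · rw [Set.indicator_of_mem h5, Set.indicator_of_mem (show A ∈ Hz z from ⟨hA, h5⟩)]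
            · rw [Set.indicator_of_notMem h5,
                Set.indicator_of_notMem (fun h6 : A ∈ Hz z => h5 h6.2)]
        rw [Finset.sum_congr rfl (fun z _ => h4 z), ← Finset.mul_sum] at h3
        have h5 : (0 : ℝ) < 2 ^ Fintype.card J := by positivity
        have h6 := mul_le_mul_of_nonneg_right h3 h5.le
        calc ∑ z, Set.indicator (Hz z) (fun _ => (1 : ℝ)) A
            = (1 / 2) ^ Fintype.card J * (∑ z, Set.indicator (Hz z) (fun _ => (1 : ℝ)) A) *
              2 ^ Fintype.card J := by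
              rw [mul_comm ((1 / 2 : ℝ) ^ _), mul_assoc, ← mul_pow]
              norm_num
          _ ≤ _ := h6
      · rw [Set.indicator_of_notMem hA, mul_zero]
        refine le_of_eq (Finset.sum_eq_zero fun z _ => ?_)
        exact Set.indicator_of_notMem (fun h6 : A ∈ Hz z => hA h6.1) _)
  have h5 : (0 : ℝ) ≤ (1 / 2) ^ Fintype.card J := by positivity
  refine h1.trans ((mul_le_mul_of_nonneg_right h2 h5).trans (le_of_eq ?_))
  have h6 : (2 : ℝ) ^ Fintype.card J * (1 / 2) ^ Fintype.card J = 1 := by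
    rw [← mul_pow]
    norm_num
  calc c * 2 ^ Fintype.card J * (indep p).real G * (1 / 2) ^ Fintype.card J
      = c * (indep p).real G * (2 ^ Fintype.card J * (1 / 2) ^ Fintype.card J) := by ring
    _ = _ := by rw [h6, mul_one]

/-- the constant oracle -/
def tt : Oracle := fun _ => true

/-- **One stage.** -/
theorem stage {J : Type} [Fintype J] [DecidableEq J] (hp : ∀ z, (p z : ℝ) = 1 / 2)
    {C R : Set Oracle} {D DR : Finset (List Bool)} (hC : DepO D C) (hR : DepO DR R)
    (U : Finset (List Bool)) (kb : List Bool → Finset (List Bool)) (e : List Bool → J → List Bool)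
    (he : ∀ u ∈ U, Function.Injective (e u)) (hke : ∀ u ∈ U, ∀ u' ∈ U, ∀ j, e u j ∉ kb u')
    (hkk : ∀ u ∈ U, ∀ u' ∈ U, u ≠ u' → Disjoint (kb u) (kb u'))
    (hee : ∀ u ∈ U, ∀ u' ∈ U, u ≠ u' → ∀ j j', e u j ≠ e u' j')
    (hDk : ∀ u ∈ U, Disjoint D (kb u)) (hDe : ∀ u ∈ U, ∀ j, e u j ∉ D) {s : ℕ}
    (hs : ∀ u ∈ U, (kb u).card = s + 1) (hU : U.card = 2 ^ s)
    (q : Oracle → Finset (List Bool)) (hq : ∀ A A' : Oracle, (∀ z ∈ q A, A z = A' z) → q A' = q A)
    {F : Finset (List Bool)} (hF : ∀ A A' : Oracle, (∀ z ∈ F, A z = A' z) → q A' = q A)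
    {T : ℕ} (hT : ∀ A, (q A).card ≤ T) (hTs : 4 * T ≤ 2 ^ s)
    (hst : ∀ u ∈ U, ∀ A, A ∈ wit (kb u) tt → (∀ u' ∈ U, u' ≠ u → A ∉ wit (kb u') tt) →
      (∀ j, e u j ∉ q A) → Ex (ber (1 / 2)) (fun z : J → Bool =>
        Set.indicator R (fun _ => (1 : ℝ)) (ow (e u) z A)) ≤ 1 / 2) :
    (indep p).real (C ∩ R) ≤ 15 / 16 * (indep p).real C := by
  classical
  set π : ℝ := (1 / 2) ^ (s + 1) with hπ
  have hπ0 : 0 ≤ π := by positivity
  have hUπ : (U.card : ℝ) * π = 1 / 2 := by
    rw [hU, hπ, pow_succ]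
    push_cast
    rw [← mul_assoc, ← mul_pow]
    norm_num
  have hTπ : (T : ℝ) * π ≤ 1 / 8 := by
    have h1 : (4 * T : ℝ) ≤ 2 ^ s := by exact_mod_cast hTs
    have h2 : (4 * T : ℝ) * π ≤ 2 ^ s * π := mul_le_mul_of_nonneg_right h1 hπ0
    have h3 : (2 : ℝ) ^ s * π = 1 / 2 := by
      rw [← hUπ, hU]
      push_cast
      rfl
    rw [h3] at h2
    linarith
  have hC0 : (0 : ℝ) ≤ (indep p).real C := measureReal_nonneg
  have hprod : ∀ u ∈ U, ∏ z ∈ kb u, ber (p z) (tt z) = π := by
    intro u hu
    rw [Finset.prod_congr rfl (fun z _ => ber_half (hp z) _), Finset.prod_const, hs u hu]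
  -- blocks
  set te : List Bool → Finset (List Bool) := fun u => Finset.univ.image (e u) with hte
  have hmte : ∀ u y, y ∈ te u ↔ ∃ j, e u j = y := by
    intro u y
    rw [hte, Finset.mem_image]
    simp
  set blk : List Bool → Finset (List Bool) := fun u => kb u ∪ te u with hblk
  have hsep : ∀ u ∈ U, ∀ u' ∈ U, u ≠ u' → Disjoint (blk u) (blk u') := by
    intro u hu u' hu' hne
    rw [Finset.disjoint_left]
    intro y hy hy'
    rcases Finset.mem_union.1 hy with h1 | h1 <;> rcases Finset.mem_union.1 hy' with h2 | h2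
    · exact Finset.disjoint_left.1 (hkk u hu u' hu' hne) h1 h2
    · obtain ⟨j, rfl⟩ := (hmte u' y).1 h2
      exact hke u' hu' u hu j h1
    · obtain ⟨j, rfl⟩ := (hmte u y).1 h1
      exact hke u hu u' hu' j h2
    · obtain ⟨j, rfl⟩ := (hmte u y).1 h1
      obtain ⟨j', h3⟩ := (hmte u' _).1 h2
      exact hee u hu u' hu' hne j j' h3.symm
  have hDblk : ∀ u ∈ U, Disjoint D (blk u) := by
    intro u hu
    rw [Finset.disjoint_left]
    intro y hy hy'
    rcases Finset.mem_union.1 hy' with h2 | h2
    · exact Finset.disjoint_left.1 (hDk u hu) hy h2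
    · obtain ⟨j, rfl⟩ := (hmte u y).1 h2
      exact hDe u hu j hy
  -- the events
  set Uu : List Bool → Set Oracle := fun u =>
    {A | A ∈ C ∧ A ∈ wit (kb u) tt ∧ ∀ u' ∈ U, u' ≠ u → A ∉ wit (kb u') tt} with hUu
  set Tc : List Bool → Set Oracle := fun u => {A | ¬ Disjoint (q A) (blk u)} with hTc
  have hUd : ∀ u ∈ U, DepO (D ∪ U.biUnion kb) (Uu u) := by
    intro u hu A A' h1 h2
    refine ⟨hC A A' (fun z hz => h1 z (Finset.mem_union_left _ hz)) h2.1, ?_, ?_⟩
    · intro z hz
      rw [← h1 z (Finset.mem_union_right _ (Finset.mem_biUnion.2 ⟨u, hu, hz⟩))]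
      exact h2.2.1 z hz
    · intro u' hu' hne hcon
      refine h2.2.2 u' hu' hne fun z hz => ?_
      rw [h1 z (Finset.mem_union_right _ (Finset.mem_biUnion.2 ⟨u', hu', hz⟩))]
      exact hcon z hz
  have hTd : ∀ u ∈ U, DepO ((D ∪ F) \ blk u) (C ∩ Tc u) := by
    intro u hu A A' h1 h2
    set A'' : Oracle := fun z => if z ∈ blk u then A z else A' z with hA''
    have e1 : ∀ z ∈ D ∪ F, A z = A'' z := by
      intro z hz
      rw [hA'']
      dsimp only
      split_ifs with h3
      · rfl
      · exact h1 z (Finset.mem_sdiff.2 ⟨hz, h3⟩)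
    refine ⟨hC A A' (fun z hz => h1 z (Finset.mem_sdiff.2 ⟨Finset.mem_union_left _ hz,
      Finset.disjoint_left.1 (hDblk u hu) hz⟩)) h2.1, fun hcon => h2.2 ?_⟩
    have h4 : q A'' = q A := hF A A'' fun z hz => e1 z (Finset.mem_union_right _ hz)
    have h5 : q A'' = q A' := hq A' A'' fun z hz => by
      rw [hA'']
      dsimp only
      rw [if_neg (Finset.disjoint_left.1 hcon hz)]
    rw [← h4, h5]
    exact hcon
  have hTT : DepO F (fun A => True) := fun _ _ _ h => h
  have hTm : ∀ u ∈ U, MeasurableSet (Tc u) := by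
    intro u hu
    have h1 : DepO F (Tc u) := by
      intro A A' h1 h2 hcon
      apply h2
      rw [← hF A A' h1]
      exact hcon
    exact h1.measurable
  -- the probability of the key
  have e1 : ∀ u ∈ U, (indep p).real C * π / 2 ≤ (indep p).real (Uu u) := by
    intro u hu
    have h1 : C ∩ wit (kb u) tt ⊆ Uu u ∪ ⋃ u' ∈ U.erase u,
        (C ∩ (wit (kb u) tt ∩ wit (kb u') tt)) := by
      rintro A ⟨h1, h2⟩
      by_cases h3 : ∃ u' ∈ U, u' ≠ u ∧ A ∈ wit (kb u') tt
      · obtain ⟨u', h4, h5, h6⟩ := h3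
        exact Or.inr (Set.mem_iUnion₂.2 ⟨u', Finset.mem_erase.2 ⟨h5, h4⟩, h1, h2, h6⟩)
      · push Not at h3
        exact Or.inl ⟨h1, h2, h3⟩
    have h2 := (measureReal_mono (μ := indep p) h1 (measure_ne_top _ _)).trans
      (measureReal_union_le _ _)
    have h3 : (indep p).real (⋃ u' ∈ U.erase u, (C ∩ (wit (kb u) tt ∩ wit (kb u') tt))) ≤
        (indep p).real C * π / 2 := by
      refine (measureReal_biUnion_finset_le _ _).trans ?_
      have h4 : ∀ u' ∈ U.erase u, (indep p).real (C ∩ (wit (kb u) tt ∩ wit (kb u') tt)) =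
          (indep p).real C * (π * π) := by
        intro u' hu'
        obtain ⟨h5, h6⟩ := Finset.mem_erase.1 hu'
        rw [pair_prob p hC (hDk u hu) (hDk u' h6) (hkk u hu u' h6 h5.symm), hprod u hu,
          hprod u' h6]
      rw [Finset.sum_congr rfl h4, Finset.sum_const, nsmul_eq_mul]
      have h7 : ((U.erase u).card : ℝ) ≤ U.card := by
        exact_mod_cast Finset.card_le_card (Finset.erase_subset _ _)
      calc ((U.erase u).card : ℝ) * ((indep p).real C * (π * π))
          ≤ U.card * ((indep p).real C * (π * π)) :=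
            mul_le_mul_of_nonneg_right h7 (by positivity)
        _ = (indep p).real C * π * (U.card * π) := by ring
        _ = _ := by rw [hUπ]; ring
    have h8 : (indep p).real (C ∩ wit (kb u) tt) = (indep p).real C * π := by
      rw [real_match p hC tt (kb u) (hDk u hu), hprod u hu]
    rw [h8] at h2
    linarith
  -- the touched keys
  have e2 : ∑ u ∈ U, (indep p).real (C ∩ Tc u) ≤ T * (indep p).real C := by
    refine count_le (indep p) U (fun u => C ∩ Tc u)
      (fun u hu => hC.measurable.inter (hTm u hu)) hC.measurable T ?_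
    intro A
    by_cases hA : A ∈ C
    · rw [Set.indicator_of_mem hA, mul_one]
      have h1 : ∀ u ∈ U, Set.indicator (C ∩ Tc u) (fun _ => (1 : ℝ)) A =
          if ¬ Disjoint (q A) (blk u) then 1 else 0 := by
        intro u _
        by_cases h2 : Disjoint (q A) (blk u)
        · rw [if_neg (not_not.2 h2), Set.indicator_of_notMem (fun h3 => h3.2 h2)]
        · rw [if_pos h2, Set.indicator_of_mem (show A ∈ C ∩ Tc u from ⟨hA, h2⟩)]
      rw [Finset.sum_congr rfl h1, ← Finset.sum_filter, Finset.sum_const, nsmul_eq_mul, mul_one]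
      exact_mod_cast (card_bad hsep).trans (hT A)
    · rw [Set.indicator_of_notMem hA, mul_zero]
      exact le_of_eq (Finset.sum_eq_zero fun u _ => Set.indicator_of_notMem (fun h3 => hA h3.1) _)
  have e3 : ∀ u ∈ U, (indep p).real ((C ∩ Tc u) ∩ wit (kb u) tt) =
      (indep p).real (C ∩ Tc u) * π := by
    intro u hu
    rw [real_match p (hTd u hu) tt (kb u), hprod u hu]
    exact Finset.disjoint_of_subset_right Finset.subset_union_left Finset.sdiff_disjoint
  set Gu : List Bool → Set Oracle := fun u => Uu u \ Tc u with hGu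
  have e4 : ∀ u ∈ U, (indep p).real C * π / 2 - (indep p).real (C ∩ Tc u) * π ≤
      (indep p).real (Gu u) := by
    intro u hu
    have h1 : Uu u ⊆ Gu u ∪ ((C ∩ Tc u) ∩ wit (kb u) tt) := by
      intro A hA
      by_cases h2 : A ∈ Tc u
      · exact Or.inr ⟨⟨hA.1, h2⟩, hA.2.1⟩
      · exact Or.inl ⟨hA, h2⟩
    have h2 := (measureReal_mono (μ := indep p) h1 (measure_ne_top _ _)).trans
      (measureReal_union_le _ _)
    rw [e3 u hu] at h2
    have h3 := e1 u hu
    linarith
  have e5 : (indep p).real C / 8 ≤ ∑ u ∈ U, (indep p).real (Gu u) := by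
    have h1 := Finset.sum_le_sum e4
    rw [Finset.sum_sub_distrib, Finset.sum_const, nsmul_eq_mul, ← Finset.sum_mul] at h1
    have h2 := mul_le_mul_of_nonneg_right e2 hπ0
    have h3 : (U.card : ℝ) * ((indep p).real C * π / 2) = (indep p).real C / 4 := by
      calc (U.card : ℝ) * ((indep p).real C * π / 2) = (indep p).real C / 2 * (U.card * π) := by
            ring
        _ = _ := by rw [hUπ]; ring
    have h4 : T * (indep p).real C * π ≤ (indep p).real C / 8 := by
      calc T * (indep p).real C * π = (indep p).real C * (T * π) := by ring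
        _ ≤ (indep p).real C * (1 / 8) := mul_le_mul_of_nonneg_left hTπ hC0
        _ = _ := by ring
    rw [h3] at h1
    linarith
  -- no dependence on the tree
  have hGd : ∀ u ∈ U, DepO (((D ∪ F) ∪ U.biUnion kb) \ te u) (Gu u) := by
    intro u hu A A' h1 h2
    set A'' : Oracle := fun z => if z ∈ te u then A z else A' z with hA''
    have hag : ∀ z, z ∈ (D ∪ F) ∪ U.biUnion kb → z ∉ te u → A z = A' z := fun z hz hz' =>
      h1 z (Finset.mem_sdiff.2 ⟨hz, hz'⟩)
    have hkt : ∀ u' ∈ U, ∀ z ∈ kb u', z ∉ te u := by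
      intro u' hu' z hz hz'
      obtain ⟨j, rfl⟩ := (hmte u z).1 hz'
      exact hke u hu u' hu' j hz
    have hDt : ∀ z ∈ D, z ∉ te u := by
      intro z hz hz'
      obtain ⟨j, rfl⟩ := (hmte u z).1 hz'
      exact hDe u hu j hz
    refine ⟨⟨hC A A' (fun z hz => hag z (Finset.mem_union_left _ (Finset.mem_union_left _ hz))
      (hDt z hz)) h2.1.1, ?_, ?_⟩, ?_⟩
    · intro z hz
      rw [← hag z (Finset.mem_union_right _ (Finset.mem_biUnion.2 ⟨u, hu, hz⟩)) (hkt u hu z hz)]
      exact h2.1.2.1 z hz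
    · intro u' hu' hne hcon
      refine h2.1.2.2 u' hu' hne fun z hz => ?_
      rw [hag z (Finset.mem_union_right _ (Finset.mem_biUnion.2 ⟨u', hu', hz⟩))
        (hkt u' hu' z hz)]
      exact hcon z hz
    · intro hcon
      apply hcon
      have h2' : Disjoint (q A) (blk u) := not_not.1 h2.2
      have h4 : q A'' = q A := hF A A'' fun z hz => by
        rw [hA'']
        dsimp only
        split_ifs with h3
        · rfl
        · exact hag z (Finset.mem_union_left _ (Finset.mem_union_right _ hz)) h3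
      have h5 : q A' = q A'' := hq A'' A' fun z hz => by
        rw [hA'']
        dsimp only
        rw [h4] at hz
        rw [if_neg (fun h6 => Finset.disjoint_left.1 h2' hz (Finset.mem_union_right _ h6))]
      rw [h5, h4]
      exact h2'
  have e6 : ∀ u ∈ U, (indep p).real (Gu u ∩ R) ≤ 1 / 2 * (indep p).real (Gu u) := by
    intro u hu
    refine av p (he u hu) hp (hGd u hu) hR (fun j hj => ?_) (fun A hA => ?_)
    · exact (Finset.mem_sdiff.1 hj).2 ((hmte u _).2 ⟨j, rfl⟩)
    · have h2' : Disjoint (q A) (blk u) := not_not.1 hA.2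
      refine hst u hu A hA.1.2.1 hA.1.2.2 fun j hj => ?_
      exact Finset.disjoint_left.1 h2' hj (Finset.mem_union_right _ ((hmte u _).2 ⟨j, rfl⟩))
  have hGm : ∀ u ∈ U, MeasurableSet (Gu u) := fun u hu => (hGd u hu).measurable
  have e7 : ∑ u ∈ U, (indep p).real (Gu u \ R) ≤ (indep p).real (C \ R) := by
    rw [← measureReal_biUnion_finset]
    · refine measureReal_mono ?_ (measure_ne_top _ _)
      intro A hA
      obtain ⟨u, _, h1, h2⟩ := Set.mem_iUnion₂.1 hA
      exact ⟨h1.1.1, h2⟩
    · intro u hu u' hu' hne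
      rw [Function.onFun, Set.disjoint_left]
      intro A h1 h2
      exact h1.1.1.2.2 u' hu' (Ne.symm hne) h2.1.1.2.1
    · intro u hu
      exact (hGm u hu).diff hR.measurable
  have e8 : ∀ u ∈ U, (indep p).real (Gu u \ R) = (indep p).real (Gu u) -
      (indep p).real (Gu u ∩ R) := by
    intro u hu
    have h1 := measureReal_inter_add_sdiff (μ := indep p) (s := Gu u) hR.measurable
      (measure_ne_top _ _)
    linarith
  have e9 : (indep p).real C / 16 ≤ (indep p).real (C \ R) := by
    refine le_trans ?_ e7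
    rw [Finset.sum_congr rfl e8, Finset.sum_sub_distrib]
    have h1 := Finset.sum_le_sum e6
    rw [← Finset.mul_sum] at h1
    linarith
  have h1 := measureReal_inter_add_sdiff (μ := indep p) (s := C) hR.measurable
    (measure_ne_top _ _)
  linarith

/-- **All stages.** -/
theorem null_of_stages {R : ℕ → Set Oracle} (hdep : ∀ n, ∃ F, DepO F (R n))
    (h : ∀ D : Finset (List Bool), ∃ n, ∀ C, DepO D C →
      (indep p).real (C ∩ R n) ≤ 15 / 16 * (indep p).real C) :
    ∀ᵐ A ∂(indep p), ∃ n, A ∉ R n := by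
  classical
  choose F hF using hdep
  set C : ℕ → Set Oracle := fun M => {A | ∀ n < M, A ∈ R n} with hC
  set FC : ℕ → Finset (List Bool) := fun M => (Finset.range M).biUnion F with hFC
  have hCd : ∀ M, DepO (FC M) (C M) := by
    intro M A A' h1 hA n hn
    refine hF n A A' (fun z hz => h1 z ?_) (hA n hn)
    exact Finset.mem_biUnion.2 ⟨n, Finset.mem_range.2 hn, hz⟩
  have hanti : Antitone C := fun M M' h1 A hA n hn => hA n (by omega)
  set E : Set Oracle := {A | ∀ n, A ∈ R n} with hE
  have hEC : E = ⋂ M, C M := by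
    ext A
    rw [Set.mem_iInter]
    constructor
    · intro h1 M n _
      exact h1 n
    · intro h1 n
      exact h1 (n + 1) n (Nat.lt_succ_self n)
  have hsub : ∀ M, E ⊆ C M := fun M => by
    rw [hEC]
    exact Set.iInter_subset _ _
  suffices hkey : indep p E = 0 by
    have h1 : ∀ᵐ A ∂(indep p), ¬ ∀ n, A ∈ R n := by
      rw [ae_iff]
      simpa using hkey
    filter_upwards [h1] with A hA
    push Not at hA
    exact hA
  by_contra hpos
  have hEpos : 0 < (indep p).real E := by
    rw [Measure.real, ENNReal.toReal_pos_iff]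
    exact ⟨pos_iff_ne_zero.2 hpos, measure_lt_top _ _⟩
  have htend : Filter.Tendsto (fun M => (indep p).real (C M)) Filter.atTop
      (nhds ((indep p).real E)) := by
    have h1 := tendsto_measure_iInter_atTop (μ := indep p)
      (fun M => (hCd M).measurable.nullMeasurableSet) hanti ⟨0, measure_ne_top _ _⟩
    rw [← hEC] at h1
    exact (ENNReal.tendsto_toReal (measure_ne_top _ _)).comp h1
  obtain ⟨M, hM⟩ := (htend.eventually (gt_mem_nhds
    (show (indep p).real E < (1 + 1 / 15) * (indep p).real E by linarith))).exists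
  obtain ⟨n, hn⟩ := h (FC M)
  have h1 := hn (C M) (hCd M)
  have h2 : (indep p).real E ≤ (indep p).real (C M ∩ R n) :=
    measureReal_mono (fun A hA => ⟨hsub M hA, hA n⟩) (measure_ne_top _ _)
  linarith

end Pool.Agent.TH683.WH
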