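import Pool.Agent.TH683.WH.Cls
import Pool.Agent.TH683.WH.Prob
import Pool.Agent.TH683.W1D.Cpx

/-! # The evaluation of the problems with a hidden key -/

set_option autoImplicit false

namespace Pool.Agent.TH683.WH

open Pool.Agent.NPC Pool.Agent.H620R2.Gauge Pool.Agent.H591R3.PHG Pool.Agent.H622R2
  Pool.Agent.TH678.HW Pool.Agent.TH678.WP Pool.Agent.TH678.ETH
open Pool.Agent.H591R3.PHG.LangSig (fit length_fit fit_eq dec poly_fit poly_dec exists_fit forall_fit
  length_unpair)
open Pool.Agent.H591R3.PHG.LangTrAux (enc_append enc_nil parse_enc)

theorem enc_str (as : List ℕ) (w : ℕ) (z u : List Bool) : enc as w z ++ u = enc as w (z ++ u) := by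
  induction as using List.reverseRecOn with
  | nil => rw [enc_nil, enc_nil, W1D.pairBits_append]
  | append_singleton as a ih => rw [enc_append, enc_append, ← W1D.pairBits_append, ih]

/-- the inputs -/
def xin (s b P : ℕ) (x0 : List Bool) : List Bool :=
  pairBits (List.replicate s true) (pairBits (List.replicate b true)
    (pairBits x0 (List.replicate P true)))

theorem length_xin (s b P : ℕ) (x0 : List Bool) :
    (xin s b P x0).length = 2 * s + 1 + (2 * b + 1 + (2 * x0.length + 1 + P)) := by
  unfold xin
  simp only [length_pairBits, List.length_replicate]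

theorem RT_xin (s b P : ℕ) (x0 : List Bool) : RT (xin s b P x0) =
    pairBits (List.replicate s true) (pairBits (List.replicate b true) x0) := by
  unfold RT xin
  simp only [unpair_pairBits]

/-- one guess -/
theorem alt_guess {t : ℕ} (O : Oracle) {m k n' : ℕ} (hk : 2 ≤ k) (w r : List Bool) :
    Alt m (Tail (MT t) O n' k) (t + 1) false (pairBits w r) ↔
      (∀ v : List Bool, v.length ≤ m → upTo n' O (Kq (pairBits v (pairBits w r))) = true) ∧
        Alt m (fun z => upTo n' O (Lq t z) = bot false t) (t + 1) false (pairBits w r) := by
  have h1 : ∀ y, Tail (MT t) O n' k y ↔ (upTo n' O (Kq (strip t y)) = true ∧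
      upTo n' O (Lq t y) = bot false t) := fun y => run_MT t _ y hk
  rw [alt_congr h1, Alt, Alt]
  have h2 : ∀ v : List Bool, Alt m (fun y => upTo n' O (Kq (strip t y)) = true ∧
      upTo n' O (Lq t y) = bot false t) t true (pairBits v (pairBits w r)) ↔
      (upTo n' O (Kq (pairBits v (pairBits w r))) = true ∧
        Alt m (fun z => upTo n' O (Lq t z) = bot false t) t true
          (pairBits v (pairBits w r))) := fun v =>
    alt_and (fun y => upTo n' O (Kq y) = true) (fun y => upTo n' O (Lq t y) = bot false t) t 0
      true _ (by omega)
  simp only [h2]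
  exact ⟨fun h => ⟨fun v hv => (h v hv).1, fun v hv => (h v hv).2⟩,
    fun h v hv => ⟨h.1 v hv, h.2 v hv⟩⟩

theorem mem_prob {t : ℕ} (O : Oracle) {k s b P W N : ℕ} {as : List ℕ} {z : List Bool}
    (hk : 2 ≤ k) (hlen : as.length = t + 1)
    (hN : Nat.log 2 (xin s b P (enc as W z)).length = N) (has : ∀ a ∈ as, a ≤ N + 1)
    (hW : W ≤ N + 1) (hW1 : 1 ≤ W) (hb : b ≤ N + 1)
    (hw : ∀ a ∈ as, 2 * s + 1 + a ≤ k * (N + 1)) :
    (xin s b P (enc as W z), k) ∈ prob t O ↔ ∃ u : List Bool, u.length = s ∧
      (∀ i < 2 ^ b, upTo (k * (N + 1)) O (true :: false :: (u ++ bitsOf b i)) = true) ∧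
        enc as W (z ++ u) ∈ lang t (fun y => upTo (k * (N + 1)) O (true :: true :: y)) := by
  unfold prob
  rw [Set.mem_ofPred_eq]
  dsimp only
  rw [hN, RT_xin]
  set n' := k * (N + 1) with hn'
  -- the data
  have hX : ∀ u : List Bool, parse (t + 1) (enc as W (z ++ u)) =
      (as.reverse, pairBits (List.replicate W true) (z ++ u)) := by
    intro u
    rw [← hlen]
    exact parse_enc as W _
  have hX1 : ∀ u : List Bool, (unpair (enc as W (z ++ u))).1.length ::
      (parse t (unpair (enc as W (z ++ u))).2).1 = as.reverse := fun u => (Prod.ext_iff.1 (hX u)).1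
  have hX2 : ∀ u : List Bool, (parse t (unpair (enc as W (z ++ u))).2).2 =
      pairBits (List.replicate W true) (z ++ u) := fun u => (Prod.ext_iff.1 (hX u)).2
  have hmem : ∀ u : List Bool, (unpair (enc as W (z ++ u))).1.length ∈ as := by
    intro u
    have h1 : (unpair (enc as W (z ++ u))).1.length ∈ as.reverse := by
      rw [← hX1 u]
      exact List.mem_cons_self ..
    exact List.mem_reverse.1 h1
  have hmem2 : ∀ u : List Bool, ∀ a ∈ (parse t (unpair (enc as W (z ++ u))).2).1, a ∈ as := by
    intro u a ha
    have h1 : a ∈ as.reverse := by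
      rw [← hX1 u]
      exact List.mem_cons_of_mem _ ha
    exact List.mem_reverse.1 h1
  have hWl : ∀ u : List Bool,
      (unpair (parse t (unpair (enc as W (z ++ u))).2).2).1.length = W := by
    intro u
    rw [hX2 u, unpair_pairBits]
    exact List.length_replicate ..
  have hlang : ∀ u : List Bool, enc as W (z ++ u) ∈
      lang t (fun y => upTo n' O (true :: true :: y)) ↔
      ∃ i < 2 ^ (unpair (enc as W (z ++ u))).1.length,
        ((parse t (unpair (enc as W (z ++ u))).2).1.foldr up
          (bitv (fun y => upTo n' O (true :: true :: y))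
            (unpair (parse t (unpair (enc as W (z ++ u))).2).2).1.length))
            (enc as W (z ++ u) ++ bitsOf (unpair (enc as W (z ++ u))).1.length i) = true := by
    intro u
    unfold Pool.Agent.H591R3.PHG.lang
    rw [Set.mem_ofPred_eq]
    show decide (∀ i < 2 ^ (unpair (enc as W (z ++ u))).1.length, _ = false) = false ↔ _
    rw [decide_eq_false_iff_not]
    push Not
    refine exists_congr fun i => and_congr_right fun _ => ?_
    simp only [ne_eq, Bool.not_eq_false]
    rfl
  -- one guess
  have hone : ∀ w : List Bool, Alt (N + 1) (Tail (MT t) O n' k) (t + 1) false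
      (pairBits w (pairBits (List.replicate s true) (pairBits (List.replicate b true)
        (enc as W z)))) ↔
      (∀ i < 2 ^ b, upTo n' O (true :: false ::
        (fit (List.replicate s true) (unpair w).1 ++ bitsOf b i)) = true) ∧
      ((parse t (unpair (enc as W (z ++ fit (List.replicate s true) (unpair w).1))).2).1.foldr up
          (bitv (fun y => upTo n' O (true :: true :: y)) (unpair (parse t
            (unpair (enc as W (z ++ fit (List.replicate s true) (unpair w).1))).2).2).1.length))
            (enc as W (z ++ fit (List.replicate s true) (unpair w).1) ++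
              fit (unpair (enc as W (z ++ fit (List.replicate s true) (unpair w).1))).1
                (unpair w).2) = true := by
    intro w
    rw [alt_guess O hk]
    refine and_congr ?_ ?_
    · have h1 : ∀ v : List Bool, Kq (pairBits v (pairBits w (pairBits (List.replicate s true)
          (pairBits (List.replicate b true) (enc as W z))))) =
          true :: false :: (fit (List.replicate s true) (unpair w).1 ++
            fit (List.replicate b true) v) := by
        intro v
        unfold Kq
        simp only [unpair_pairBits]
      simp only [h1]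
      exact forall_fit (fun v => upTo n' O (true :: false ::
        (fit (List.replicate s true) (unpair w).1 ++ v)) = true) (List.replicate b true)
        (List.length_replicate ..) hb
    · set u := fit (List.replicate s true) (unpair w).1 with hu
      have hd : dec (0 + 1) (cv 0 (pairBits w (pairBits (List.replicate s true)
          (pairBits (List.replicate b true) (enc as W z))))) =
          ((unpair (enc as W (z ++ u))).2, enc as W (z ++ u) ++
            fit (unpair (enc as W (z ++ u))).1 (unpair w).2) := by
        unfold cv
        simp only [unpair_pairBits]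
        rw [enc_str, ← hu]
        simp only [dec, unpair_pairBits]
      have h2 := alt_eval (t := t) (upTo n' O) (N + 1) t 0 false _ _ _ (by omega) hd
        (fun a ha => has a (hmem2 u a ha)) (by rw [hWl u]; exact hW) (by rw [hWl u]; exact hW1)
      rw [Bool.not_false] at h2
      exact h2
  constructor
  · rintro ⟨w, _, h1⟩
    rw [hone w] at h1
    refine ⟨fit (List.replicate s true) (unpair w).1, by rw [length_fit, List.length_replicate],
      h1.1, ?_⟩
    rw [hlang]
    set u := fit (List.replicate s true) (unpair w).1 with hu
    have h2 := (exists_fit (m := (unpair w).2.length + (unpair (enc as W (z ++ u))).1.length)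
      (fun c => ((parse t (unpair (enc as W (z ++ u))).2).1.foldr up
          (bitv (fun y => upTo n' O (true :: true :: y))
            (unpair (parse t (unpair (enc as W (z ++ u))).2).2).1.length))
            (enc as W (z ++ u) ++ c) = true) (unpair (enc as W (z ++ u))).1 rfl (by omega)).1
      ⟨(unpair w).2, by omega, h1.2⟩
    exact h2
  · rintro ⟨u, hu, h1, h2⟩
    rw [hlang] at h2
    obtain ⟨i, hi, h3⟩ := h2
    have hfu : fit (List.replicate s true) u = u :=
      fit_eq (by rw [hu, List.length_replicate])
    refine ⟨pairBits u (bitsOf (unpair (enc as W (z ++ u))).1.length i), ?_, ?_⟩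
    · rw [length_pairBits, length_bitsOf, hu]
      exact hw _ (hmem u)
    · rw [hone, unpair_pairBits]
      dsimp only
      rw [hfu]
      refine ⟨h1, ?_⟩
      rw [fit_eq (by rw [length_bitsOf])]
      exact h3

end Pool.Agent.TH683.WH
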