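import Pool.Agent.TH683.WH.Stage
import Pool.Agent.TH683.W1D.Acc

/-! # One stage: the lower bound -/

set_option autoImplicit false

namespace Pool.Agent.TH683.WH

open Pool.Agent.NPC Pool.Agent.H620R2.Gauge Pool.Agent.H591R3.PHG Pool.Agent.H622R2
  Pool.Agent.TH678.HW Pool.Agent.TH678.WP Pool.Agent.TH678.ETH Pool.Agent.H676 Finset H568R2
  MeasureTheory Pool.Agent.W900.IE Pool.Agent.W900.PS
open Pool.Agent.TH680.OD (join)
open Pool.Agent.TH680.SE (wit wit_dep card_strs)
open Pool.Agent.TH680.DT (strs mem_strs)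

namespace Sd

variable (d : Sd)

/-- the questions of the first phase -/
def q (Q A : Oracle) : Finset (List Bool) :=
  (Finset.univ.biUnion fun j : Fin (2 ^ (d.u + 11)) => qs d.MR (join Q A) (pairBits d.π (d.x j))
    (d.MR.p.eval (pairBits d.π (d.x j)).length) []).image List.tail

/-- all possible questions of the first phase -/
def aq : Finset (List Bool) :=
  (Finset.univ.biUnion fun j : Fin (2 ^ (d.u + 11)) => allq d.MR (pairBits d.π (d.x j))
    (d.MR.p.eval (pairBits d.π (d.x j)).length) []).image List.tail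

variable {d}

theorem join_agree {Q A A' : Oracle} {S : Finset (List Bool)}
    (h : ∀ z ∈ S.image List.tail, A z = A' z) : ∀ y ∈ S, join Q A y = join Q A' y := by
  intro y hy
  rcases y with _ | ⟨c, z⟩
  · rfl
  · cases c with
    | false => rfl
    | true => exact h z (Finset.mem_image.2 ⟨true :: z, hy, rfl⟩)

theorem q_loc {Q A A' : Oracle} (h : ∀ z ∈ d.q Q A, A z = A' z) : d.q Q A' = d.q Q A ∧
    ∀ j, d.MR.out (join Q A') (pairBits d.π (d.x j)) =
      d.MR.out (join Q A) (pairBits d.π (d.x j)) := by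
  have h1 := join_agree (Q := Q) h
  have h2 : ∀ j, qs d.MR (join Q A') (pairBits d.π (d.x j))
      (d.MR.p.eval (pairBits d.π (d.x j)).length) [] = qs d.MR (join Q A) (pairBits d.π (d.x j))
      (d.MR.p.eval (pairBits d.π (d.x j)).length) [] ∧
      d.MR.run (join Q A') (pairBits d.π (d.x j))
      (d.MR.p.eval (pairBits d.π (d.x j)).length) [] = d.MR.run (join Q A) (pairBits d.π (d.x j))
      (d.MR.p.eval (pairBits d.π (d.x j)).length) [] := fun j =>
    qs_loc d.MR _ _ _ fun y hy => h1 y (Finset.mem_biUnion.2 ⟨j, Finset.mem_univ _, hy⟩)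
  refine ⟨?_, fun j => (h2 j).2⟩
  unfold q
  congr 1
  exact Finset.biUnion_congr rfl fun j _ => (h2 j).1

theorem q_sub (Q A : Oracle) : d.q Q A ⊆ d.aq := by
  unfold q aq
  refine Finset.image_subset_image fun y hy => ?_
  obtain ⟨j, hj, h1⟩ := Finset.mem_biUnion.1 hy
  exact Finset.mem_biUnion.2 ⟨j, hj, qs_sub _ _ _ _ _ h1⟩

theorem card_q (Q A : Oracle) : (d.q Q A).card ≤
    2 ^ (d.u + 11) * d.MR.p.eval (2 * d.π.length + 1 + d.len) := by
  unfold q
  refine Finset.card_image_le.trans (Finset.card_biUnion_le.trans ?_)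
  refine (Finset.sum_le_sum fun j _ => card_qs _ _ _ _ _).trans ?_
  have h1 : ∀ j ∈ (Finset.univ : Finset (Fin (2 ^ (d.u + 11)))),
      d.MR.p.eval (pairBits d.π (d.x j)).length = d.MR.p.eval (2 * d.π.length + 1 + d.len) := by
    intro j _
    rw [length_pairBits, length_x]
  rw [Finset.sum_congr rfl h1, Finset.sum_const, smul_eq_mul, Finset.card_univ, Fintype.card_fin]

/-- the strings which may be important -/
noncomputable def FF (d : Sd) : Finset (List Bool) := d.aq ∪
  (W1D.bel (d.k * (d.N + 1) + d.h * (d.N + 1) + 1)).toFinset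

theorem right_dep (Q : Oracle) : DepO (FF d) (d.Right Q) := by
  intro A A' h hA j
  obtain ⟨r, h1, h2⟩ := hA j
  have hq : ∀ z ∈ d.q Q A, A z = A' z := fun z hz =>
    h z (Finset.mem_union_left _ (q_sub Q A hz))
  have hjoin : ∀ z : List Bool, z.length ≤ d.k * (d.N + 1) + d.h * (d.N + 1) →
      join Q A z = join Q A' z := by
    intro z hz
    rcases z with _ | ⟨c, z⟩
    · rfl
    · cases c with
      | false => rfl
      | true =>
        refine h z (Finset.mem_union_right _ (List.mem_toFinset.2 (W1D.mem_bel.2 ?_)))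
        rw [List.length_cons] at hz
        omega
  have hu1 : upTo (d.k * (d.N + 1)) (join Q A) = upTo (d.k * (d.N + 1)) (join Q A') :=
    upTo_congr fun z hz => hjoin z (by omega)
  have hu2 : upTo (d.h * (d.N + 1)) (join Q A) = upTo (d.h * (d.N + 1)) (join Q A') :=
    upTo_congr fun z hz => hjoin z (by omega)
  have hT : ∀ t, Tail (MT t) (join Q A) (d.k * (d.N + 1)) d.k =
      Tail (MT t) (join Q A') (d.k * (d.N + 1)) d.k := by
    intro t
    funext y
    unfold Tail
    rw [hu1]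
  have hTM : Tail d.M (join Q A) (d.h * (d.N + 1)) d.h =
      Tail d.M (join Q A') (d.h * (d.N + 1)) d.h := by
    funext y
    unfold Tail
    rw [hu2]
  refine ⟨r, by rw [(q_loc hq).2 j, h1], ?_⟩
  rw [hTM] at h2
  rw [← h2]
  unfold prob
  rw [Set.mem_ofPred_eq, Set.mem_ofPred_eq]
  dsimp only
  have hl : Nat.log 2 (d.x j).length = d.N := by
    rw [length_x]
    rfl
  rw [hl, hT]

/-- the function at the leaves of the quantifiers -/
noncomputable def FL (d : Sd) (Q A : Oracle) (u : List Bool) (G : List Bool → List Bool)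
    (y : List Bool) (z : d.J → Bool) : Bool :=
  open Classical in
  decide (Tail d.M (join Q (ow (d.e u) z A)) (d.h * (d.N + 1)) d.h
    (gW (d.h * (d.N + 1)) (d.g * (d.N + 1)) G d.t y))

theorem FL_dtr (Q A : Oracle) (u : List Bool) (G : List Bool → List Bool) (y : List Bool) {r : ℕ}
    (hr : d.h + 1 ≤ r) : DTr r (FL d Q A u G y) := by
  classical
  have h1 := dtr_run d.M (gW (d.h * (d.N + 1)) (d.g * (d.N + 1)) G d.t y) (d.h + 1) []
    (fun z : d.J → Bool => upTo (d.h * (d.N + 1)) (join Q (ow (d.e u) z A)))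
    (coO_join Q A (d.e u) _)
  have h2 : FL d Q A u G y = fun z => decide (d.M.run (upTo (d.h * (d.N + 1))
      (join Q (ow (d.e u) z A))) (gW (d.h * (d.N + 1)) (d.g * (d.N + 1)) G d.t y) (d.h + 1) [] =
        some [true]) := by
    funext z
    unfold FL Tail
    congr
  rw [h2]
  exact h1.mono hr

theorem ber_half_nonneg (b : Bool) : (0 : ℝ) ≤ ber (1 / 2) b := by
  rw [ber_half rfl]
  norm_num

/-- the numbers -/
theorem small (hok : d.Ok) : ((d.t + 1 : ℕ) : ℝ) * (2 ^ ((d.n + 11) +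
    (d.t + 1) * (2 * ((d.h + d.g + 1) * (d.N + 1)) + 1) + 2) * (1 / 2) ^ (2 ^ (2 * d.u) + 1)) +
      3 * (1 / 2) ^ (2 ^ d.u) ≤ 1 / 2 := by
  have h1 : ((d.t + 1 : ℕ) : ℝ) ≤ 2 ^ (d.t + 1) := by
    exact_mod_cast (Nat.lt_two_pow_self (n := d.t + 1)).le
  have h2 : ((d.t + 1 : ℕ) : ℝ) * (2 ^ ((d.n + 11) +
      (d.t + 1) * (2 * ((d.h + d.g + 1) * (d.N + 1)) + 1) + 2) * (1 / 2) ^ (2 ^ (2 * d.u) + 1)) ≤
      1 / 4 := by
    have h3 : (2 : ℝ) ^ ((d.t + 1) + ((d.n + 11) +
        (d.t + 1) * (2 * ((d.h + d.g + 1) * (d.N + 1)) + 1) + 2)) ≤ 2 ^ (2 ^ (2 * d.u) - 1) := by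
      apply pow_le_pow_right₀ (by norm_num)
      have := hok.hbig
      omega
    have h4 : (2 : ℝ) ^ (2 ^ (2 * d.u) - 1) * (1 / 2) ^ (2 ^ (2 * d.u) + 1) = 1 / 4 := by
      have h5 : 1 ≤ 2 ^ (2 * d.u) := Nat.one_le_two_pow
      obtain ⟨m, hm⟩ : ∃ m, 2 ^ (2 * d.u) = m + 1 := ⟨2 ^ (2 * d.u) - 1, by omega⟩
      rw [hm, Nat.add_sub_cancel, show m + 1 + 1 = m + 2 by ring, pow_add, ← mul_assoc, ← mul_pow]
      norm_num
    have h6 : (0 : ℝ) ≤ (1 / 2) ^ (2 ^ (2 * d.u) + 1) := by positivity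
    calc ((d.t + 1 : ℕ) : ℝ) * (2 ^ ((d.n + 11) +
          (d.t + 1) * (2 * ((d.h + d.g + 1) * (d.N + 1)) + 1) + 2) * (1 / 2) ^ (2 ^ (2 * d.u) + 1))
        ≤ 2 ^ (d.t + 1) * (2 ^ ((d.n + 11) +
          (d.t + 1) * (2 * ((d.h + d.g + 1) * (d.N + 1)) + 1) + 2) * (1 / 2) ^ (2 ^ (2 * d.u) + 1)) :=
          mul_le_mul_of_nonneg_right h1 (by positivity)
      _ = 2 ^ ((d.t + 1) + ((d.n + 11) +
          (d.t + 1) * (2 * ((d.h + d.g + 1) * (d.N + 1)) + 1) + 2)) *
            (1 / 2) ^ (2 ^ (2 * d.u) + 1) := by rw [pow_add _ (d.t + 1)]; ring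
      _ ≤ 2 ^ (2 ^ (2 * d.u) - 1) * (1 / 2) ^ (2 ^ (2 * d.u) + 1) :=
          mul_le_mul_of_nonneg_right h3 h6
      _ = 1 / 4 := h4
  have h3 : (3 : ℝ) * (1 / 2) ^ (2 ^ d.u) ≤ 1 / 4 := by
    have h4 : 4 ≤ 2 ^ d.u := by
      calc 4 = 2 ^ 2 := by norm_num
        _ ≤ 2 ^ d.u := Nat.pow_le_pow_right (by norm_num) hok.hu2
    have h5 : ((1 : ℝ) / 2) ^ (2 ^ d.u) ≤ (1 / 2) ^ 4 :=
      pow_le_pow_of_le_one (by norm_num) (by norm_num) h4
    calc (3 : ℝ) * (1 / 2) ^ (2 ^ d.u) ≤ 3 * (1 / 2) ^ 4 := by linarith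
      _ ≤ 1 / 4 := by norm_num
  linarith

/-- **A fresh tree cannot be evaluated.** -/
theorem fresh (hok : d.Ok) (Q A : Oracle) {u : List Bool} (hu : u.length = d.s)
    (h1 : A ∈ wit (d.kb u) tt)
    (h2 : ∀ u' : List Bool, u'.length = d.s → u' ≠ u → A ∉ wit (d.kb u') tt)
    (h3 : ∀ g, d.e u g ∉ d.q Q A) :
    Ex (ber (1 / 2)) (fun z : d.J → Bool =>
      Set.indicator (d.Right Q) (fun _ => (1 : ℝ)) (ow (d.e u) z A)) ≤ 1 / 2 := by
  classical
  have he := e_inj hok hu
  have hloc : ∀ z : d.J → Bool, ∀ y ∈ d.q Q A, A y = ow (d.e u) z A y := by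
    intro z y hy
    rw [ow_off]
    rintro g rfl
    exact h3 g hy
  have hout : ∀ (z : d.J → Bool) j, d.MR.out (join Q (ow (d.e u) z A)) (pairBits d.π (d.x j)) =
      d.MR.out (join Q A) (pairBits d.π (d.x j)) := fun z => (q_loc (hloc z)).2
  by_cases hr : ∃ rr : Fin (2 ^ (d.u + 11)) → List Bool,
      ∀ j, d.MR.out (join Q A) (pairBits d.π (d.x j)) = some (rr j)
  · obtain ⟨rr, hrr⟩ := hr
    set G : List Bool → List Bool := fun y =>
      if h : ∃ j : Fin (2 ^ (d.u + 11)), bitsOf (d.n + 11) j.val = y then rr h.choose else []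
      with hG
    have hGj : ∀ j : Fin (2 ^ (d.u + 11)), G (bitsOf (d.n + 11) j.val) = rr j := by
      intro j
      have hex : ∃ j' : Fin (2 ^ (d.u + 11)), bitsOf (d.n + 11) j'.val =
        bitsOf (d.n + 11) j.val := ⟨j, rfl⟩
      rw [hG]
      dsimp only
      rw [dif_pos hex]
      congr 1
      have h4 : 2 ^ (d.u + 11) ≤ 2 ^ (d.n + 11) :=
        Nat.pow_le_pow_right (by norm_num) (by have := hok.hu; omega)
      exact Fin.ext (bitsOf_inj (lt_of_lt_of_le hex.choose.2 h4) (lt_of_lt_of_le j.2 h4)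
        hex.choose_spec)
    have hlen2 : (pw d.as).length = (d.t + 1) + 1 := by
      rw [pw, List.length_map]
      exact hok.hlen
    have hcard : 2 ^ (2 * d.u) * Fintype.card (Fin (2 ^ (d.u + 11))) ≤ 2 ^ (3 * d.u + 11) := by
      rw [Fintype.card_fin, ← pow_add]
      exact Nat.pow_le_pow_right (by norm_num) (by omega)
    have hm := main_leaf (X := Fin (2 ^ (d.u + 11))) (n := d.n) (u := d.u)
      (D := 2 ^ (3 * d.u + 11)) (g := 2 ^ (d.u + 9)) hok.hn hok.hu hcard (d.t + 1) (pw d.as)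
      hlen2 ((d.h + d.g + 1) * (d.N + 1)) (d.n + 11) (FL d Q A u G)
      (fun y _ => FL_dtr Q A u G y hok.hh) (fun j => bitsOf (d.n + 11) j.val)
      (fun j => (length_bitsOf _ _).le) true
    have hf := final_numbers hok.hn hok.hu
    have hl := hok.hlaw
    have hsm := small hok
    refine le_trans (Ex_mono ber_half_nonneg (fun z => ?_)) (hm.trans ?_)
    · by_cases hz : ow (d.e u) z A ∈ d.Right Q
      · rw [Set.indicator_of_mem hz, if_pos]
        intro j
        obtain ⟨r, h4, h5⟩ := hz j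
        rw [hout, hrr j] at h4
        have hrj : r = rr j := (Option.some.inj h4).symm
        subst hrj
        have h6 := qf_top (m := (d.h + d.g + 1) * (d.N + 1)) (m₁ := d.h * (d.N + 1)) (m₂ := d.g * (d.N + 1))
          (t := d.t) (Nat.mul_le_mul_right _ (by omega))
          (Nat.mul_le_mul_right _ (by omega)) G
          (fun (z : d.J → Bool) y => Tail d.M (join Q (ow (d.e u) z A)) (d.h * (d.N + 1)) d.h y)
          (bitsOf (d.n + 11) j.val) z
        rw [hGj] at h6
        have h7 : QF ((d.h + d.g + 1) * (d.N + 1)) (FL d Q A u G) (d.t + 1) true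
            (bitsOf (d.n + 11) j.val) z = true ↔ (d.x j, d.k) ∈ prob (d.t + 1)
              (join Q (ow (d.e u) z A)) := h6.trans h5.symm
        have h8 : (d.x j, d.k) ∈ prob (d.t + 1) (join Q (ow (d.e u) z A)) ↔
            Tr (8 * d.n :: pw d.as) z j = false := by
          rw [x_iff hok]
          have hkey : ∀ u' : List Bool, ow (d.e u) z A ∈ wit (d.kb u') tt ↔
              A ∈ wit (d.kb u') tt := by
            intro u'
            refine forall₂_congr fun y hy => ?_
            rw [ow_off]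
            intro g hg
            rw [← hg] at hy
            exact e_notMem u u' g hy
          have htr : (fun g => ow (d.e u) z A (d.e u g)) = z := by
            funext g
            exact ow_at he z A g
          constructor
          · rintro ⟨u', hu', h9, h10⟩
            rw [hkey] at h9
            have h11 : u' = u := by
              by_contra hne
              exact h2 u' hu' hne h9
            subst h11
            rw [htr] at h10
            exact h10
          · intro h9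
            exact ⟨u, hu, (hkey u).2 h1, by rw [htr]; exact h9⟩
        have hval : val (fun _ => none) z = z := by
          funext g
          rfl
        rw [hval]
        intro h9
        have h9' : QF ((d.h + d.g + 1) * (d.N + 1)) (FL d Q A u G) (d.t + 1) true
            (bitsOf (d.n + 11) j.val) z = Tr (8 * d.n :: pw d.as) z j := h9
        rw [h9'] at h7
        have h10 := h7.trans h8
        cases h11 : Tr (8 * d.n :: pw d.as) z j <;> rw [h11] at h10 <;> simp at h10
      · rw [Set.indicator_of_notMem hz]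
        split_ifs <;> norm_num
    · have e1 : ((d.t + 1 : ℕ) : ℝ) * (2 ^ (d.n + 11 + (d.t + 1) *
          (2 * ((d.h + d.g + 1) * (d.N + 1)) + 1) + 2) * (1 / 2) ^ (2 ^ (2 * d.u) + 1)) +
          3 * (1 / 2) ^ (2 ^ d.u) ≤ 1 / 2 := hsm
      linarith
  · have hz : ∀ z : d.J → Bool,
        Set.indicator (d.Right Q) (fun _ => (1 : ℝ)) (ow (d.e u) z A) = 0 := by
      intro z
      apply Set.indicator_of_notMem
      intro hR
      apply hr
      have h4 : ∀ j, ∃ r, d.MR.out (join Q A) (pairBits d.π (d.x j)) = some r := by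
        intro j
        obtain ⟨r, h5, _⟩ := hR j
        exact ⟨r, by rw [← hout z j, h5]⟩
      choose rr hrr using h4
      exact ⟨rr, hrr⟩
    unfold Ex
    rw [Finset.sum_eq_zero (fun z _ => mul_eq_zero_of_right _ (hz z))]
    norm_num

/-- **One stage.** -/
theorem stage_bound (hok : d.Ok) (p : List Bool → unitInterval) (hp : ∀ z, (p z : ℝ) = 1 / 2)
    (Q : Oracle) {C : Set Oracle} {D : Finset (List Bool)} (hC : DepO D C)
    (hD : ∀ z ∈ D, z.length < d.n) :
    (indep p).real (C ∩ d.Right Q) ≤ 15 / 16 * (indep p).real C := by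
  have hs1 := hok.hs1
  refine stage p (J := d.J) hp hC (right_dep Q) (strs d.s) d.kb d.e
    (fun u hu => e_inj hok (mem_strs.1 hu)) (fun u _ u' _ g => e_notMem u u' g)
    (fun u hu u' hu' hne => kb_disj (mem_strs.1 hu) (mem_strs.1 hu') hne)
    (fun u hu u' hu' hne g g' => e_ne (mem_strs.1 hu) (mem_strs.1 hu') hne g g')
    (fun u hu => ?_) (fun u hu g hg => ?_) (fun u hu => kb_card hok u) (card_strs d.s) (d.q Q)
    (fun A A' h => (q_loc h).1) (F := d.aq) (fun A A' h => (q_loc fun z hz =>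
      h z (q_sub Q A hz)).1) (card_q Q) hok.hT (fun u hu A h1 h2 h3 => ?_)
  · rw [Finset.disjoint_left]
    intro y hy hy'
    have h1 := hD y hy
    have h2 := kb_len (mem_strs.1 hu) hy'
    omega
  · have h1 := hD _ hg
    have h2 := (e_len (mem_strs.1 hu) g).1
    omega
  · exact fresh hok Q A (mem_strs.1 hu) h1 (fun u' hu' hne => h2 u' (mem_strs.2 hu') hne) h3

end Sd

end Pool.Agent.TH683.WH
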