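import Pool.Agent.TH683.WH.Lang
import Pool.Agent.H591R3.PHG.Event

/-! # The questions of an algorithm, and decision trees -/

set_option autoImplicit false

namespace Pool.Agent.TH683.WH

open Pool.Agent.NPC Pool.Agent.H620R2.Gauge Pool.Agent.H591R3.PHG Pool.Agent.H622R2
  Pool.Agent.TH678.HW Pool.Agent.TH678.WP Pool.Agent.TH678.ETH Pool.Agent.H676 Finset
open Pool.Agent.TH680.OD (join)

/-- the questions of an algorithm -/
def qs (M : Alg) (O : Oracle) (x : List Bool) : ℕ → List Bool → Finset (List Bool)
  | 0, _ => ∅
  | n + 1, a =>
    match M.D (pairBits x a) with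
    | [] => ∅
    | true :: _ => ∅
    | false :: q => insert q (qs M O x n (a ++ [O q]))

/-- all possible questions -/
def allq (M : Alg) (x : List Bool) : ℕ → List Bool → Finset (List Bool)
  | 0, _ => ∅
  | n + 1, a => insert (M.D (pairBits x a)).tail
      (allq M x n (a ++ [true]) ∪ allq M x n (a ++ [false]))

theorem qs_loc (M : Alg) {O O' : Oracle} (x : List Bool) : ∀ (n : ℕ) (a : List Bool),
    (∀ y ∈ qs M O x n a, O y = O' y) →
      qs M O' x n a = qs M O x n a ∧ M.run O' x n a = M.run O x n a := by
  intro n
  induction n with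
  | zero => exact fun a _ => ⟨rfl, rfl⟩
  | succ n ih =>
    intro a h
    rw [qs] at h ⊢
    rw [qs, Alg.run, Alg.run]
    rcases hD : M.D (pairBits x a) with _ | ⟨c, q⟩
    · exact ⟨rfl, rfl⟩
    · cases c with
      | true => exact ⟨rfl, rfl⟩
      | false =>
        rw [hD] at h
        dsimp only at h ⊢
        have h1 : O q = O' q := h q (Finset.mem_insert_self _ _)
        rw [← h1]
        obtain ⟨h2, h3⟩ := ih (a ++ [O q]) fun y hy => h y (Finset.mem_insert_of_mem hy)
        exact ⟨by rw [h2], h3⟩

theorem card_qs (M : Alg) (O : Oracle) (x : List Bool) : ∀ (n : ℕ) (a : List Bool),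
    (qs M O x n a).card ≤ n := by
  intro n
  induction n with
  | zero => exact fun a => by simp [qs]
  | succ n ih =>
    intro a
    rw [qs]
    rcases M.D (pairBits x a) with _ | ⟨c, q⟩
    · simp
    · cases c with
      | true => simp
      | false => exact (Finset.card_insert_le _ _).trans (Nat.succ_le_succ (ih _))

theorem qs_sub (M : Alg) (O : Oracle) (x : List Bool) : ∀ (n : ℕ) (a : List Bool),
    qs M O x n a ⊆ allq M x n a := by
  intro n
  induction n with
  | zero => exact fun a => by simp [qs]
  | succ n ih =>
    intro a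
    rw [qs, allq]
    rcases M.D (pairBits x a) with _ | ⟨c, q⟩
    · simp
    · cases c with
      | true => simp
      | false =>
        dsimp only
        refine Finset.insert_subset_insert _ ((ih _).trans ?_)
        cases O q with
        | true => exact Finset.subset_union_left
        | false => exact Finset.subset_union_right

/-- the oracles `O z` ask for at most one of the bits `z` -/
def CoO {I : Type} (O : (I → Bool) → Oracle) : Prop :=
  ∀ q, (∃ c, ∀ z, O z q = c) ∨ ∃ i, ∀ z, O z q = z i

theorem CoO.update {I : Type} [DecidableEq I] {O : (I → Bool) → Oracle} (h : CoO O) (i : I)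
    (b : Bool) : CoO (fun z => O (Function.update z i b)) := by
  intro q
  rcases h q with ⟨c, hc⟩ | ⟨i', hi⟩
  · exact Or.inl ⟨c, fun z => hc _⟩
  · by_cases he : i' = i
    · subst he
      exact Or.inl ⟨b, fun z => (hi _).trans (Function.update_self ..)⟩
    · exact Or.inr ⟨i', fun z => (hi _).trans (Function.update_of_ne he ..)⟩

theorem dtr_run {I : Type} [Fintype I] [DecidableEq I] (M : Alg) (y : List Bool) :
    ∀ (n : ℕ) (a : List Bool) (O : (I → Bool) → Oracle), CoO O →
      DTr n (fun z => decide (M.run (O z) y n a = some [true])) := by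
  intro n
  induction n with
  | zero => exact fun a O _ => ⟨false, fun z => by simp [Alg.run]⟩
  | succ n ih =>
    intro a O hO
    rcases hD : M.D (pairBits y a) with _ | ⟨c, q⟩
    · refine DTr.const ⟨false, fun z => ?_⟩
      rw [Alg.run, hD]
      simp
    · cases c with
      | true =>
        refine DTr.const ⟨decide (some q = some [true]), fun z => ?_⟩
        rw [Alg.run, hD]
      | false =>
        have hrun : ∀ z, M.run (O z) y (n + 1) a = M.run (O z) y n (a ++ [O z q]) := by
          intro z
          rw [Alg.run, hD]
        rcases hO q with ⟨c, hc⟩ | ⟨i, hi⟩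
        · have h1 : (fun z => decide (M.run (O z) y (n + 1) a = some [true])) =
              fun z => decide (M.run (O z) y n (a ++ [c]) = some [true]) := by
            funext z
            rw [hrun, hc]
          rw [h1]
          exact (ih (a ++ [c]) O hO).mono (Nat.le_succ n)
        · refine Or.inr ⟨i, fun b => ?_⟩
          have h1 : (fun z => decide (M.run (O (Function.update z i b)) y (n + 1) a =
              some [true])) = fun z => decide (M.run (O (Function.update z i b)) y n
                (a ++ [b]) = some [true]) := by
            funext z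
            rw [hrun, hi, Function.update_self]
          rw [h1]
          exact ih (a ++ [b]) _ (hO.update i b)

theorem coO_join {I : Type} (Q A : Oracle) (e : I → List Bool) (n : ℕ) :
    CoO (fun z : I → Bool => upTo n (join Q (ow e z A))) := by
  intro q
  have h0 : ∀ z : I → Bool, upTo n (join Q (ow e z A)) q =
      (decide (q.length ≤ n) && join Q (ow e z A) q) := fun z => rfl
  simp only [h0]
  by_cases hl : q.length ≤ n
  · simp only [decide_eq_true hl, Bool.true_and]
    rcases q with _ | ⟨c, y⟩
    · exact Or.inl ⟨false, fun z => rfl⟩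
    · cases c with
      | false => exact Or.inl ⟨Q y, fun z => rfl⟩
      | true =>
        by_cases h : ∃ j, e j = y
        · refine Or.inr ⟨h.choose, fun z => ?_⟩
          show ow e z A y = _
          unfold ow
          rw [dif_pos h]
        · refine Or.inl ⟨A y, fun z => ?_⟩
          show ow e z A y = _
          unfold ow
          rw [dif_neg h]
  · simp only [decide_eq_false hl, Bool.false_and]
    exact Or.inl ⟨false, fun z => rfl⟩

/-- change the innermost string by `G` and truncate the other strings -/
def gW (m₁ m₂ : ℕ) (G : List Bool → List Bool) : ℕ → List Bool → List Bool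
  | 0, y => pairBits ((unpair y).1.take m₁) (G (unpair y).2)
  | i + 1, y => pairBits ((unpair y).1.take m₂) (gW m₁ m₂ G i (unpair y).2)

theorem take_exists {m m' : ℕ} (h : m' ≤ m) (φ : List Bool → Prop) :
    (∃ v : List Bool, v.length ≤ m ∧ φ (v.take m')) ↔ ∃ v : List Bool, v.length ≤ m' ∧ φ v := by
  constructor
  · rintro ⟨v, _, h1⟩
    exact ⟨v.take m', by simp, h1⟩
  · rintro ⟨v, h1, h2⟩
    exact ⟨v, h1.trans h, by rwa [List.take_of_length_le h1]⟩

theorem take_forall {m m' : ℕ} (h : m' ≤ m) (φ : List Bool → Prop) :
    (∀ v : List Bool, v.length ≤ m → φ (v.take m')) ↔ ∀ v : List Bool, v.length ≤ m' → φ v := by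
  constructor
  · intro h1 v hv
    have h2 := h1 v (hv.trans h)
    rwa [List.take_of_length_le hv] at h2
  · intro h1 v _
    exact h1 _ (by simp)

open Classical in
theorem qf_alt {I : Type} {m m₁ m₂ K : ℕ} (h : m₂ ≤ m) (G : List Bool → List Bool)
    (T : (I → Bool) → List Bool → Prop) : ∀ (s i : ℕ) (b : Bool) (y : List Bool) (z : I → Bool),
    i + s = K → (QF m (fun y z => decide (T z (gW m₁ m₂ G K y))) s b y z = true ↔
      Alt m₂ (T z) s b (gW m₁ m₂ G i y)) := by
  intro s
  induction s with
  | zero =>
    intro i b y z hi
    have hi : i = K := by omega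
    subst hi
    rw [QF, Alt, decide_eq_true_eq]
  | succ s ih =>
    intro i b y z hi
    have key : ∀ (b : Bool) (v : List Bool), (QF m (fun y z => decide (T z (gW m₁ m₂ G K y))) s b
        (pairBits v y) z = true ↔ Alt m₂ (T z) s b (pairBits (v.take m₂) (gW m₁ m₂ G i y))) := by
      intro b v
      rw [ih (i + 1) b _ z (by omega), gW, unpair_pairBits]
    cases b with
    | true =>
      rw [QF, Alt, decide_eq_true_eq]
      simp only [key]
      exact take_exists h (fun v => Alt m₂ (T z) s false (pairBits v (gW m₁ m₂ G i y)))
    | false =>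
      rw [QF, Alt, decide_eq_true_eq]
      simp only [key]
      exact take_forall h (fun v => Alt m₂ (T z) s true (pairBits v (gW m₁ m₂ G i y)))

open Classical in
theorem qf_top {I : Type} {m m₁ m₂ t : ℕ} (h₁ : m₁ ≤ m) (h₂ : m₂ ≤ m) (G : List Bool → List Bool)
    (T : (I → Bool) → List Bool → Prop) (y : List Bool) (z : I → Bool) :
    QF m (fun y z => decide (T z (gW m₁ m₂ G t y))) (t + 1) true y z = true ↔
      ∃ w : List Bool, w.length ≤ m₁ ∧ Alt m₂ (T z) t false (pairBits w (G y)) := by
  have key : ∀ (v : List Bool), (QF m (fun y z => decide (T z (gW m₁ m₂ G t y))) t false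
      (pairBits v y) z = true ↔ Alt m₂ (T z) t false (pairBits (v.take m₁) (G y))) := by
    intro v
    rw [qf_alt h₂ G T t 0 false _ z (by omega), gW, unpair_pairBits]
  rw [QF, decide_eq_true_eq]
  simp only [key]
  exact take_exists h₁ (fun v => Alt m₂ (T z) t false (pairBits v (G y)))

end Pool.Agent.TH683.WH
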